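import Pool.Agent.Work.MP_0fc146_gt_h31.Interface

/-!
# Block Act
-/

noncomputable section

open scoped Topology

namespace Pool.Agent.CircleShift

namespace ActAux

theorem act_cont {U : Type} [TopologicalSpace U] [MulAction G U]
    {pt : G → Fin 8 → ℝ × ℝ → U} (hU : OctTree U pt) (g : G) : Continuous (fun u : U => g • u) := by
  refine hU.lf.continuous ?_ ?_ ?_
  · rw [Set.eq_univ_iff_forall]
    intro u
    obtain ⟨h, k, d, hd, rfl⟩ := hU.surj u
    exact Set.mem_iUnion.2 ⟨(h, k), d, hd, rfl⟩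
  · rintro ⟨h, k⟩
    have := (hU.emb h k).isClosed_range
    rwa [Set.range_comp' (pt h k) (Subtype.val), Subtype.range_coe] at this
  · rintro ⟨h, k⟩
    have e1 : pt h k '' Tset = (fun d : Tset => pt h k d) '' Set.univ := by
      rw [Set.image_univ, Set.range_comp' (pt h k) (Subtype.val), Subtype.range_coe]
    rw [e1, (hU.emb h k).isInducing.continuousOn_image_iff, continuousOn_univ]
    have e2 : (fun u : U => g • u) ∘ (fun d : Tset => pt h k d) =
        fun d : Tset => pt (g * h) k d := by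
      funext d
      exact hU.smul _ _ _ _
    rw [e2]
    exact (hU.emb (g * h) k).continuous

end ActAux

open ActAux

theorem stmt_Act : Stmt_Act := by
  intro U _ _ _ pt hU
  refine ⟨act_cont hU, ?_, ⟨?_⟩⟩
  · intro g u hu
    obtain ⟨h, k, d, hd, rfl⟩ := hU.surj u
    rw [hU.smul] at hu
    have hk : ∀ k : Fin 8, k ≠ k + 4 := by decide
    rcases hU.inj _ _ _ _ _ _ hd hd hu with h1 | h1 | h1 | h1 | h1
    · exact mul_eq_right.mp h1.1
    · exact mul_eq_right.mp h1.1
    · exact mul_eq_right.mp h1.1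
    · exact mul_eq_right.mp h1.1
    · exact absurd h1.2.1 (hk k)
  · intro K L hK hL
    have fK := hU.lf.finite_nonempty_inter_compact hK
    have fL := hU.lf.finite_nonempty_inter_compact hL
    refine ((fK.prod fL).image (fun x => x.2.1 * x.1.1⁻¹)).subset ?_
    intro γ hγ
    obtain ⟨w, ⟨u, huK, rfl⟩, hwL⟩ := hγ
    obtain ⟨h, k, d, hd, rfl⟩ := hU.surj u
    refine ⟨((h, k), (γ * h, k)), ⟨⟨_, ⟨d, hd, rfl⟩, huK⟩, ⟨_, ⟨d, hd, rfl⟩, ?_⟩⟩, by simp⟩
    simp only
    rw [← hU.smul]
    exact hwL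

end Pool.Agent.CircleShift
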