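import Pool.Agent.Work.MP_0fc146_gt_98.Num

/-!
# Block Oct: the octagons
-/

noncomputable section

open scoped Topology

namespace Pool.Agent.CircleShift

namespace OctAux

/-! ## Arithmetic -/

/-- multiplication -/
def mz (a b : ℤ × ℤ) : ℤ × ℤ := (a.1 * b.1 + 3 * (a.2 * b.2), a.1 * b.2 + a.2 * b.1)

theorem z3_mz (a b : ℤ × ℤ) : z3 (mz a b) = z3 a * z3 b := by
  unfold z3 mz
  push_cast
  linear_combination (-(a.2 : ℝ) * b.2) * sq3

theorem z3_sub (a b : ℤ × ℤ) : z3 (a - b) = z3 a - z3 b := by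
  unfold z3; simp; ring

theorem z3_add' (a b : ℤ × ℤ) : z3 (a + b) = z3 a + z3 b := by
  unfold z3; simp; ring

theorem irr3 : Irrational √3 := by
  have := Nat.Prime.irrational_sqrt (p := 3) (by norm_num)
  exact_mod_cast this

theorem z3_eq_zero {a : ℤ × ℤ} (h : z3 a = 0) : a.1 = 0 ∧ a.2 = 0 := by
  unfold z3 at h
  have h2 : a.2 = 0 := by
    by_contra h2
    apply irr3
    have h3 : (a.2 : ℝ) ≠ 0 := by exact_mod_cast h2
    refine ⟨-(a.1 : ℚ) / a.2, ?_⟩
    push_cast
    rw [div_eq_iff h3]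
    linarith
  rw [h2] at h
  simp at h
  exact ⟨h, h2⟩

theorem z3_norm (p q : ℤ) (h : ¬ (p = 0 ∧ q = 0)) : 1 ≤ |z3 (p, q) * z3 (p, -q)| := by
  have e : z3 (p, q) * z3 (p, -q) = ((p ^ 2 - 3 * q ^ 2 : ℤ) : ℝ) := by
    unfold z3
    push_cast
    linear_combination (-(q : ℝ) * q) * sq3
  rw [e, ← Int.cast_abs]
  have : p ^ 2 - 3 * q ^ 2 ≠ 0 := by
    intro h0
    have h1 : z3 (p, q) * z3 (p, -q) = 0 := by rw [e, h0]; simp
    rcases mul_eq_zero.mp h1 with h2 | h2
    · exact h (z3_eq_zero h2)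
    · have := z3_eq_zero h2
      exact h ⟨this.1, by simpa using this.2⟩
  exact_mod_cast Int.one_le_abs this

/-- The affine function with values `z3 A` at `1` and `z3 B` at `-1` is positive on `(-1, 1)`. -/
def pp (A B : ℤ × ℤ) : Bool := nn A && nn B && (decide (A ≠ (0, 0)) || decide (B ≠ (0, 0)))

theorem pp_spec {A B : ℤ × ℤ} (h : pp A B = true) {S : ℝ} (hS : |S| < 1) :
    0 < (1 + S) * z3 A + (1 - S) * z3 B := by
  unfold pp at h
  simp only [Bool.and_eq_true, Bool.or_eq_true, decide_eq_true_eq] at h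
  obtain ⟨⟨hA, hB⟩, h⟩ := h
  have hA' := nn_spec hA
  have hB' := nn_spec hB
  rw [abs_lt] at hS
  have h1 : 0 < 1 + S := by linarith
  have h2 : 0 < 1 - S := by linarith
  rcases h with h | h
  · have : 0 < z3 A := by
      rcases hA'.lt_or_eq with h3 | h3
      · exact h3
      · exact absurd (Prod.ext_iff.2 (z3_eq_zero h3.symm)) h
    positivity
  · have : 0 < z3 B := by
      rcases hB'.lt_or_eq with h3 | h3
      · exact h3
      · exact absurd (Prod.ext_iff.2 (z3_eq_zero h3.symm)) h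
    positivity

/-! ## The triangles contain no lattice points -/

/-- four times the area form of `w k` and `w (k + 1)` for `S = e` -/
def f0 (k : Fin 8) (e : ℤ) : ℤ × ℤ :=
  mz (xTab k + (2 * e, 0)) (yTab (k + 1)) - mz (yTab k) (xTab (k + 1) + (2 * e, 0))

/-- twice the area form of `w k` and `L` -/
def f1 (k : Fin 8) (e p q : ℤ) : ℤ × ℤ := mz (xTab k + (2 * e, 0)) (p, -q) - mz (yTab k) (p, q)

theorem f0_spec (k : Fin 8) (S : ℝ) : 8 * (xw S k * yw (k + 1) - yw k * xw S (k + 1)) =
    (1 + S) * z3 (f0 k 1) + (1 - S) * z3 (f0 k (-1)) := by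
  unfold f0 xw yw
  rw [z3_sub, z3_sub, z3_mz, z3_mz, z3_mz, z3_mz, z3_add', z3_add', z3_add', z3_add']
  have e1 : z3 (2 * 1, 0) = 2 := by simp [z3]
  have e2 : z3 (2 * -1, 0) = -2 := by simp [z3]
  rw [e1, e2]
  ring

theorem f1_spec (k : Fin 8) (S : ℝ) (p q : ℤ) : 4 * (xw S k * z3 (p, -q) - yw k * z3 (p, q)) =
    (1 + S) * z3 (f1 k 1 p q) + (1 - S) * z3 (f1 k (-1) p q) := by
  unfold f1 xw yw
  rw [z3_sub, z3_sub, z3_mz, z3_mz, z3_mz, z3_add', z3_add']
  have e1 : z3 (2 * 1, 0) = 2 := by simp [z3]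
  have e2 : z3 (2 * -1, 0) = -2 := by simp [z3]
  rw [e1, e2]
  ring

theorem f0_pos : ∀ k, pp (f0 k 1) (f0 k (-1)) = true := by decide +kernel

theorem area_pos (k : Fin 8) {S : ℝ} (hS : |S| < 1) :
    0 < xw S k * yw (k + 1) - yw k * xw S (k + 1) := by
  have h1 := f0_spec k S
  have h2 := pp_spec (f0_pos k) hS
  linarith

/-- the test -/
def chk (k : Fin 8) (p q : ℤ) : Bool :=
  pp (-(f1 k 1 p q)) (-(f1 k (-1) p q)) ||
  pp (f1 (k + 1) 1 p q) (f1 (k + 1) (-1) p q) ||
  pp (f1 k 1 p q + f1 k 1 p q - (f1 (k + 1) 1 p q + f1 (k + 1) 1 p q) - f0 k 1)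
    (f1 k (-1) p q + f1 k (-1) p q - (f1 (k + 1) (-1) p q + f1 (k + 1) (-1) p q) - f0 k (-1))

theorem chk_all : ∀ k : Fin 8, ∀ a : Fin 7, ∀ b : Fin 5,
    ((a : ℤ) - 3 ≠ 0 ∨ (b : ℤ) - 2 ≠ 0) → chk k ((a : ℤ) - 3) ((b : ℤ) - 2) = true := by
  decide +kernel

theorem z3_neg' (a : ℤ × ℤ) : z3 (-a) = - z3 a := by unfold z3; simp; ring

theorem yw_bound : ∀ k, |yw k| ≤ 1.4 := by
  intro k
  have h1 := sq3_lo
  have h2 := sq3_hi
  fin_cases k <;> simp [yw, yTab, z3] <;> rw [abs_le] <;> constructor <;> linarith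

theorem xw_bound (S : ℝ) (hS : |S| < 1) : ∀ k, |xw S k| ≤ 6.1 := by
  intro k
  have h1 := sq3_lo
  have h2 := sq3_hi
  rw [abs_lt] at hS
  fin_cases k <;> simp [xw, xTab, z3] <;> rw [abs_le] <;> constructor <;> linarith

theorem lat0 (k : Fin 8) (p q : ℤ) (S b c : ℝ) (hS : |S| < 1) (hb : 0 ≤ b) (hc : 0 ≤ c)
    (hbc : b + c ≤ 1) (hx : b * xw S k + c * xw S (k + 1) = z3 (p, q))
    (hy : b * yw k + c * yw (k + 1) = z3 (p, -q)) : p = 0 ∧ q = 0 := by
  have h1 := sq3_lo
  have h2 := sq3_hi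
  have hY : |z3 (p, -q)| ≤ 1.4 := by
    rw [← hy]
    have a1 := yw_bound k
    have a2 := yw_bound (k + 1)
    rw [abs_le] at *
    constructor <;> nlinarith
  have hX : |z3 (p, q)| ≤ 6.1 := by
    rw [← hx]
    have a1 := xw_bound S hS k
    have a2 := xw_bound S hS (k + 1)
    rw [abs_le] at *
    constructor <;> nlinarith
  rw [abs_le] at hX hY
  unfold z3 at hX hY
  push_cast at hX hY
  have p1 : (p : ℝ) < 4 := by linarith [hX.2, hY.2]
  have p2 : (-4 : ℝ) < p := by linarith [hX.1, hY.1]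
  have q1 : (q : ℝ) < 3 := by
    by_contra h
    push Not at h
    nlinarith [hX.2, hY.1]
  have q2 : (-3 : ℝ) < q := by
    by_contra h
    push Not at h
    nlinarith [hX.1, hY.2]
  have p1' : p < 4 := by exact_mod_cast p1
  have p2' : -4 < p := by exact_mod_cast p2
  have q1' : q < 3 := by exact_mod_cast q1
  have q2' : -3 < q := by exact_mod_cast q2
  by_contra hne
  have hchk : chk k p q = true := by
    have := chk_all k ⟨(p + 3).toNat, by omega⟩ ⟨(q + 2).toNat, by omega⟩
    have e1 : (((p + 3).toNat : ℕ) : ℤ) - 3 = p := by omega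
    have e2 : (((q + 2).toNat : ℕ) : ℤ) - 2 = q := by omega
    simp only [e1, e2] at this
    apply this
    by_contra h
    push Not at h
    exact hne h
  have hA := area_pos k hS
  have g1 := f1_spec k S p q
  have g2 := f1_spec (k + 1) S p q
  have g0 := f0_spec k S
  have e1 : xw S k * z3 (p, -q) - yw k * z3 (p, q) =
      c * (xw S k * yw (k + 1) - yw k * xw S (k + 1)) := by
    rw [← hx, ← hy]; ring
  have e2 : xw S (k + 1) * z3 (p, -q) - yw (k + 1) * z3 (p, q) =
      -(b * (xw S k * yw (k + 1) - yw k * xw S (k + 1))) := by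
    rw [← hx, ← hy]; ring
  rw [e1] at g1
  rw [e2] at g2
  unfold chk at hchk
  rw [Bool.or_eq_true, Bool.or_eq_true] at hchk
  rcases hchk with (h | h) | h
  · have := pp_spec h hS
    rw [z3_neg', z3_neg'] at this
    have := mul_nonneg hc hA.le
    linarith
  · have := pp_spec h hS
    have := mul_nonneg hb hA.le
    linarith
  · have := pp_spec h hS
    rw [z3_sub, z3_sub, z3_sub, z3_sub, z3_add', z3_add', z3_add', z3_add'] at this
    have := mul_nonneg (sub_nonneg.mpr hbc) hA.le
    linarith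

/-! ## The lattice -/

/-- the coordinates of the translations -/
def pq : G →* Multiplicative (ℤ × ℤ) := FreeGroup.lift
  ![Multiplicative.ofAdd (-1, -1), Multiplicative.ofAdd (-2, -1), Multiplicative.ofAdd (1, 0),
    Multiplicative.ofAdd (-1, -1)]

/-- the coordinates of the translations -/
def cd (g : G) : ℤ × ℤ := Multiplicative.toAdd (pq g)

theorem cd_mul (g h : G) : cd (g * h) = cd g + cd h := by
  unfold cd; rw [map_mul, toAdd_mul]

theorem cd_Tl : ∀ k : Fin 8, cd (Tl k) = ![(-1, -1), (-2, -1), (1, 0), (-1, -1), (1, 1), (2, 1),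
    (-1, 0), (1, 1)] k := by
  intro k
  unfold cd pq Tl
  rw [FreeGroup.lift_mk]
  fin_cases k <;> simp [ostri] <;> rfl

theorem cd_surj (p q : ℤ) : ∃ g : G, cd g = (p, q) := by
  have hpow : ∀ (g : G) (n : ℤ), cd (g ^ n) = n • cd g := by
    intro g n
    unfold cd
    rw [map_zpow, toAdd_zpow]
  refine ⟨FreeGroup.of 2 ^ (p - q) * FreeGroup.of 0 ^ (-q), ?_⟩
  rw [cd_mul, hpow, hpow]
  have h2 : cd (FreeGroup.of 2) = (1, 0) := by
    unfold cd pq; rw [FreeGroup.lift_apply_of]; rfl
  have h0 : cd (FreeGroup.of 0) = (-1, -1) := by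
    unfold cd pq; rw [FreeGroup.lift_apply_of]; rfl
  rw [h2, h0]
  ext <;> simp

/-- transverse translation -/
def PX (g : G) : ℝ := z3 (cd g)

/-- longitudinal translation -/
def PY (g : G) : ℝ := z3 ((cd g).1, -(cd g).2)

theorem PX_mul (g h : G) : PX (g * h) = PX g + PX h := by
  unfold PX; rw [cd_mul, z3_add']

theorem PY_mul (g h : G) : PY (g * h) = PY g + PY h := by
  unfold PY; rw [cd_mul, ← z3_add']; congr 1; ext <;> simp [add_comm]

theorem PXY (g : G) (h : ¬ (PX g = 0 ∧ PY g = 0)) : 1 ≤ |PX g * PY g| := by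
  apply z3_norm
  rintro ⟨h1, h2⟩
  apply h
  unfold PX PY
  have : cd g = (0, 0) := Prod.ext_iff.2 ⟨h1, h2⟩
  rw [this]
  simp [z3]

theorem glueX (S : ℝ) (k : Fin 8) : xw S k = xw S (k + 5) + PX (Tl k) := by
  unfold PX
  rw [cd_Tl]
  fin_cases k <;> simp [xw, xTab, z3] <;> ring

theorem glueY (k : Fin 8) : yw k = yw (k + 5) + PY (Tl k) := by
  unfold PY
  rw [cd_Tl]
  fin_cases k <;> simp [yw, yTab, z3] <;> ring

/-! ## Covering -/

/-- the covering property at time `t` -/
def Cv (t : ℝ) : Prop := ∀ x y : ℝ, ∃ p q : ℤ, |x - Real.exp t * z3 (p, q)| ≤ 6 ∧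
  |y - Real.exp (-t) * z3 (p, -q)| ≤ 6

theorem exp_log_lam : Real.exp (Real.log lam) = lam := Real.exp_log lam_pos

theorem exp_neg_log_lam : Real.exp (-Real.log lam) = 2 - √3 := by
  rw [Real.exp_neg, exp_log_lam, lam_inv]

theorem Cv_add {t : ℝ} (h : Cv t) : Cv (t + Real.log lam) := by
  intro x y
  obtain ⟨p, q, h1, h2⟩ := h x y
  refine ⟨2 * p - 3 * q, 2 * q - p, ?_, ?_⟩
  · have : Real.exp (t + Real.log lam) * z3 (2 * p - 3 * q, 2 * q - p) =
        Real.exp t * z3 (p, q) := by
      rw [Real.exp_add, exp_log_lam, mul_assoc]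
      congr 1
      unfold lam z3
      push_cast
      linear_combination (2 * (q : ℝ) - p) * sq3
    rw [this]; exact h1
  · have : Real.exp (-(t + Real.log lam)) * z3 (2 * p - 3 * q, -(2 * q - p)) =
        Real.exp (-t) * z3 (p, -q) := by
      rw [neg_add, Real.exp_add, exp_neg_log_lam, mul_assoc]
      congr 1
      unfold z3
      push_cast
      linear_combination (2 * (q : ℝ) - p) * sq3
    rw [this]; exact h2

theorem Cv_sub {t : ℝ} (h : Cv t) : Cv (t - Real.log lam) := by
  intro x y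
  obtain ⟨p, q, h1, h2⟩ := h x y
  refine ⟨2 * p + 3 * q, 2 * q + p, ?_, ?_⟩
  · have : Real.exp (t - Real.log lam) * z3 (2 * p + 3 * q, 2 * q + p) =
        Real.exp t * z3 (p, q) := by
      rw [sub_eq_add_neg, Real.exp_add, exp_neg_log_lam, mul_assoc]
      congr 1
      unfold z3
      push_cast
      linear_combination (-(2 * (q : ℝ)) - p) * sq3
    rw [this]; exact h1
  · have : Real.exp (-(t - Real.log lam)) * z3 (2 * p + 3 * q, -(2 * q + p)) =
        Real.exp (-t) * z3 (p, -q) := by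
      rw [neg_sub, sub_eq_neg_add, Real.exp_add, exp_log_lam, mul_assoc]
      congr 1
      unfold lam z3
      push_cast
      linear_combination (-(2 * (q : ℝ)) - p) * sq3
    rw [this]; exact h2

theorem Cv_base {t : ℝ} (h0 : 0 ≤ t) (h1 : t ≤ Real.log lam) : Cv t := by
  have e1 : Real.exp t ≤ lam := by
    rw [← exp_log_lam]; exact Real.exp_le_exp.mpr h1
  have e2 : Real.exp (-t) ≤ 1 := by
    rw [← Real.exp_zero]; exact Real.exp_le_exp.mpr (by linarith)
  have e3 := Real.exp_pos t
  have e4 := Real.exp_pos (-t)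
  have e5 : Real.exp t * Real.exp (-t) = 1 := by rw [← Real.exp_add]; simp
  have s1 := sq3_lo
  have s2 := sq3_hi
  intro x y
  set u := x * Real.exp (-t) with hu
  set v := y * Real.exp t with hv
  have hx : x = Real.exp t * u := by rw [hu]; linear_combination (-x) * e5
  have hy : y = Real.exp (-t) * v := by rw [hv]; linear_combination (-y) * e5
  set a := (u + v) / 2 with ha
  set b := (u - v) / (2 * √3) with hb
  have hab : b * √3 = (u - v) / 2 := by rw [hb]; field_simp
  have ra := abs_sub_round a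
  have rb := abs_sub_round b
  refine ⟨round a, round b, ?_, ?_⟩
  · rw [hx, ← mul_sub, abs_mul, abs_of_pos e3]
    have : |u - z3 (round a, round b)| ≤ 1.4 := by
      have e : u - z3 (round a, round b) = (a - round a) + (b - round b) * √3 := by
        unfold z3
        simp only
        rw [sub_mul, hab, ha]; ring
      rw [e]
      refine (abs_add_le _ _).trans ?_
      rw [abs_mul, abs_of_pos sq3_pos]
      nlinarith
    have l := lam_lt
    nlinarith [abs_nonneg (u - z3 (round a, round b))]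
  · rw [hy, ← mul_sub, abs_mul, abs_of_pos e4]
    have : |v - z3 (round a, -round b)| ≤ 1.4 := by
      have e : v - z3 (round a, -round b) = (a - round a) - (b - round b) * √3 := by
        unfold z3
        simp only
        push_cast
        rw [sub_mul, hab, ha]; ring
      rw [e]
      refine (abs_sub _ _).trans ?_
      rw [abs_mul, abs_of_pos sq3_pos]
      nlinarith
    nlinarith [abs_nonneg (v - z3 (round a, -round b))]

theorem Cv_all (t : ℝ) : Cv t := by
  have hl : 0 < Real.log lam := Real.log_pos one_lt_lam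
  have key : ∀ n : ℤ, ∀ t, Cv t → Cv (t + n * Real.log lam) := by
    intro n
    induction n using Int.induction_on with
    | zero => intro t ht; simpa using ht
    | succ n ih =>
      intro t ht
      have := Cv_add (ih t ht)
      convert this using 1
      push_cast; ring
    | pred n ih =>
      intro t ht
      have := Cv_sub (ih t ht)
      convert this using 1
      push_cast; ring
  set n := ⌊t / Real.log lam⌋ with hn
  have h1 : (n : ℝ) ≤ t / Real.log lam := Int.floor_le _
  have h2 : t / Real.log lam < n + 1 := Int.lt_floor_add_one _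
  rw [le_div_iff₀ hl] at h1
  rw [div_lt_iff₀ hl] at h2
  have := key n (t - n * Real.log lam) (Cv_base (by linarith) (by linarith))
  convert this using 1
  ring

/-! ## Construction -/

theorem ofst_norm (E P Q : ℝ) (hE : 0 < E) (h : 1 ≤ |P * Q|) :
    √2 ≤ ‖(⟨E * P, E⁻¹ * Q⟩ : ℂ)‖ := by
  rw [Real.sqrt_le_left (norm_nonneg _), Complex.sq_norm, Complex.normSq_apply]
  simp only
  have e : (E * P) * (E⁻¹ * Q) = P * Q := by field_simp
  have h1 : |(E * P) * (E⁻¹ * Q)| ≤ ((E * P) ^ 2 + (E⁻¹ * Q) ^ 2) / 2 := by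
    rw [abs_le]
    constructor
    · nlinarith [sq_nonneg (E * P + E⁻¹ * Q)]
    · nlinarith [sq_nonneg (E * P - E⁻¹ * Q)]
  rw [e] at h1
  nlinarith

theorem mkOct (E : ℝ) (hE : 0 < E) (u v : Fin 8 → ℝ) (P Q : G → ℝ)
    (hP : ∀ g h, P (g * h) = P g + P h) (hQ : ∀ g h, Q (g * h) = Q g + Q h)
    (gu : ∀ k, u k = u (k + 5) + P (Tl k)) (gv : ∀ k, v k = v (k + 5) + Q (Tl k))
    (area : ∀ k, 0 < u k * v (k + 1) - v k * u (k + 1))
    (σ σ' : Fin 8 → Bool) (hσ : ∀ k, if σ k then 0 < v k else v k < 0)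
    (hσ' : ∀ k, if σ' k then 0 < v (k + 1) - v k else v (k + 1) - v k < 0)
    (c1 : (Finset.univ.filter (fun k : Fin 8 => σ k = false ∧ σ (k + 1) = true)).card = 3)
    (c2 : (Finset.univ.filter (fun i : Fin 8 => σ' (3 * i) = false ∧ σ (3 * i) = false)).card +
      (Finset.univ.filter (fun i : Fin 8 => σ (3 * i) = true ∧
        σ' (3 * (i + 1)) = true)).card = 1)
    (PQ : ∀ g, ¬ (P g = 0 ∧ Q g = 0) → 1 ≤ |P g * Q g|)
    (lat : ∀ (k : Fin 8) (g : G) (b c : ℝ), 0 ≤ b → 0 ≤ c → b + c ≤ 1 →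
      b * u k + c * u (k + 1) = P g → b * v k + c * v (k + 1) = Q g → P g = 0 ∧ Q g = 0)
    (punct : ∀ g, ¬ (u 0 = P g ∧ v 0 = Q g)) :
    ∃ W : OctData, (∀ k, W.w k = ⟨E * u k, E⁻¹ * v k⟩) ∧
      (∀ g, W.tau g = ⟨E * P g, E⁻¹ * Q g⟩) ∧ (∀ g, W.tau g ≠ 0 → √2 ≤ ‖W.tau g‖) := by
  have hE' : 0 < E⁻¹ := inv_pos.mpr hE
  have hEE : E * E⁻¹ = 1 := mul_inv_cancel₀ hE.ne'
  have hn : ∀ g, (⟨E * P g, E⁻¹ * Q g⟩ : ℂ) ≠ 0 → √2 ≤ ‖(⟨E * P g, E⁻¹ * Q g⟩ : ℂ)‖ := by
    intro g hg
    apply ofst_norm E _ _ hE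
    apply PQ
    rintro ⟨h1, h2⟩
    apply hg
    rw [h1, h2]
    simp
    rfl
  have sv : ∀ k, (E⁻¹ * v k < 0 ↔ σ k = false) ∧ (0 < E⁻¹ * v k ↔ σ k = true) := by
    intro k
    have h := hσ k
    cases hs : σ k
    · rw [hs] at h
      simp only [Bool.false_eq_true, if_false] at h
      simp only [iff_true, Bool.false_eq_true, iff_false, not_lt]
      exact ⟨mul_neg_of_pos_of_neg hE' h, (mul_neg_of_pos_of_neg hE' h).le⟩
    · rw [hs] at h
      simp only [if_true] at h
      simp only [iff_true, Bool.true_eq_false, iff_false, not_lt]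
      exact ⟨(mul_pos hE' h).le, mul_pos hE' h⟩
  have sv' : ∀ k, (E⁻¹ * v (k + 1) - E⁻¹ * v k < 0 ↔ σ' k = false) ∧
      (0 < E⁻¹ * v (k + 1) - E⁻¹ * v k ↔ σ' k = true) := by
    intro k
    have h := hσ' k
    rw [← mul_sub]
    cases hs : σ' k
    · rw [hs] at h
      simp only [Bool.false_eq_true, if_false] at h
      simp only [iff_true, Bool.false_eq_true, iff_false, not_lt]
      exact ⟨mul_neg_of_pos_of_neg hE' h, (mul_neg_of_pos_of_neg hE' h).le⟩
    · rw [hs] at h
      simp only [if_true] at h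
      simp only [iff_true, Bool.true_eq_false, iff_false, not_lt]
      exact ⟨(mul_pos hE' h).le, mul_pos hE' h⟩
  have vne : ∀ k, v k ≠ 0 := by
    intro k h0
    have h := hσ k
    rw [h0] at h
    simp at h
  have vne' : ∀ k, v (k + 1) ≠ v k := by
    intro k h0
    have h := hσ' k
    rw [h0] at h
    simp at h
  refine ⟨{ w := fun k => ⟨E * u k, E⁻¹ * v k⟩
            tau := fun g => ⟨E * P g, E⁻¹ * Q g⟩
            tau_mul := ?_
            glue := ?_
            area := ?_
            im_ne := ?_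
            turns := ?_
            side_ne := ?_
            turns' := ?_
            disc := ?_
            lat := ?_
            puncture := ?_ }, fun k => rfl, fun g => rfl, hn⟩
  · intro g h
    rw [hP, hQ]
    apply Complex.ext <;> simp <;> ring
  · intro k
    apply Complex.ext
    · simp only [Complex.add_re]
      rw [gu k]; ring
    · simp only [Complex.add_im]
      rw [gv k]; ring
  · intro k
    unfold cross
    have : E * u k * (E⁻¹ * v (k + 1)) - E⁻¹ * v k * (E * u (k + 1)) =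
        (E * E⁻¹) * (u k * v (k + 1) - v k * u (k + 1)) := by ring
    simp only
    rw [this, hEE, one_mul]
    exact area k
  · intro k
    exact mul_ne_zero hE'.ne' (vne k)
  · rw [← c1]
    congr 1
    ext k
    simp only [Finset.mem_filter, Finset.mem_univ, true_and]
    rw [(sv k).1, (sv (k + 1)).2]
  · intro k h
    exact vne' k (mul_left_cancel₀ hE'.ne' h)
  · rw [← c2]
    congr 1
    · congr 1
      ext i
      simp only [Finset.mem_filter, Finset.mem_univ, true_and, Complex.sub_im, Complex.neg_im]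
      rw [(sv' (3 * i)).1, neg_pos, (sv (3 * i)).1]
    · congr 1
      ext i
      simp only [Finset.mem_filter, Finset.mem_univ, true_and, Complex.sub_im, Complex.neg_im]
      rw [(sv' (3 * (i + 1))).2, neg_lt_zero, (sv (3 * i)).2]
  · exact ⟨√2, by positivity, hn⟩
  · intro k g b c hb hc hbc h
    have hre := congrArg Complex.re h
    have him := congrArg Complex.im h
    simp at hre him
    have h1 : b * u k + c * u (k + 1) = P g := by
      have : E * (b * u k + c * u (k + 1)) = E * P g := by linarith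
      exact mul_left_cancel₀ hE.ne' this
    have h2 : b * v k + c * v (k + 1) = Q g := by
      have : E⁻¹ * (b * v k + c * v (k + 1)) = E⁻¹ * Q g := by linarith
      exact mul_left_cancel₀ hE'.ne' this
    obtain ⟨h3, h4⟩ := lat k g b c hb hc hbc h1 h2
    rw [h3, h4]
    simp
    rfl
  · intro g h
    have hre := congrArg Complex.re h
    have him := congrArg Complex.im h
    exact punct g ⟨mul_left_cancel₀ hE.ne' hre, mul_left_cancel₀ hE'.ne' him⟩

theorem yw_punct (g : G) : yw 0 ≠ PY g := by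
  intro h
  have h1 : z3 (3 - 2 * (cd g).1, -1 + 2 * (cd g).2) = 0 := by
    have : z3 (yTab 0) = z3 (3, -1) := rfl
    unfold yw PY at h
    rw [this] at h
    unfold z3 at *
    push_cast at *
    linarith
  have h2 := (z3_eq_zero h1).1
  simp only at h2
  omega

theorem lat1 (k : Fin 8) (g : G) (S b c : ℝ) (hS : |S| < 1) (hb : 0 ≤ b) (hc : 0 ≤ c)
    (hbc : b + c ≤ 1) (hx : b * xw S k + c * xw S (k + 1) = PX g)
    (hy : b * yw k + c * yw (k + 1) = PY g) : PX g = 0 ∧ PY g = 0 := by
  have h := lat0 k (cd g).1 (cd g).2 S b c hS hb hc hbc hx hy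
  unfold PX PY
  have : cd g = (0, 0) := Prod.ext_iff.2 h
  rw [this]
  simp [z3]

end OctAux

open OctAux

theorem stmt_Oct : Stmt_Oct := by
  refine ⟨12, fun t => ?_⟩
  have hE := Real.exp_pos t
  have eE : Real.exp (-t) = (Real.exp t)⁻¹ := Real.exp_neg t
  have s1 := sq3_lo
  have s2 := sq3_hi
  constructor
  · intro S hS
    obtain ⟨W, h1, h2, h3⟩ := mkOct (Real.exp t) hE (xw S) yw PX PY PX_mul PY_mul (glueX S) glueY
      (fun k => area_pos k hS)
      ![true, true, false, true, false, false, true, false]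
      ![false, false, true, false, true, true, false, true]
      (by
        intro k
        fin_cases k <;> simp [yw, yTab, z3] <;> linarith)
      (by
        intro k
        fin_cases k <;> simp [yw, yTab, z3] <;> linarith)
      (by decide +kernel) (by decide +kernel) PXY
      (fun k g b c hb hc hbc hx hy => lat1 k g S b c hS hb hc hbc hx hy)
      (fun g h => yw_punct g h.2)
    refine ⟨W, fun k => by rw [h1, eE], h3, fun x => ?_⟩
    obtain ⟨p, q, a1, a2⟩ := Cv_all t x.re x.im
    obtain ⟨g, hg⟩ := cd_surj p q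
    refine ⟨g, (Complex.norm_le_abs_re_add_abs_im _).trans ?_⟩
    rw [h2]
    have e1 : PX g = z3 (p, q) := by unfold PX; rw [hg]
    have e2 : PY g = z3 (p, -q) := by unfold PY; rw [hg]
    rw [e1, e2, ← eE]
    simp only [Complex.sub_re, Complex.sub_im]
    linarith
  · obtain ⟨W, h1, h2, h3⟩ := mkOct (Real.exp t) hE yw (fun k => -xw 0 k) PY (fun g => -PX g)
      PY_mul (fun g h => by rw [PX_mul]; ring) glueY
      (fun k => by rw [glueX 0 k]; ring)
      (fun k => by have := area_pos (S := 0) k (by simp); linarith)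
      ![false, true, false, true, true, false, true, false]
      ![true, false, true, true, false, true, false, false]
      (by
        intro k
        fin_cases k <;> simp [xw, xTab, z3] <;> linarith)
      (by
        intro k
        fin_cases k <;> simp [xw, xTab, z3] <;> linarith)
      (by decide +kernel) (by decide +kernel)
      (fun g h => by
        have := PXY g (fun h' => h ⟨h'.2, by rw [h'.1, neg_zero]⟩)
        rwa [mul_neg, abs_neg, mul_comm])
      (fun k g b c hb hc hbc hx hy => by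
        obtain ⟨h1, h2⟩ := lat1 k g 0 b c (by simp) hb hc hbc (by linarith) hx
        exact ⟨h2, by rw [h1, neg_zero]⟩)
      (fun g h => yw_punct g h.1)
    refine ⟨W, fun k => by rw [h1, eE], h3, fun x => ?_⟩
    obtain ⟨p, q, a1, a2⟩ := Cv_all t x.re (-x.im)
    obtain ⟨g, hg⟩ := cd_surj p (-q)
    refine ⟨g, (Complex.norm_le_abs_re_add_abs_im _).trans ?_⟩
    rw [h2]
    have e1 : PX g = z3 (p, -q) := by unfold PX; rw [hg]
    have e2 : PY g = z3 (p, q) := by unfold PY; rw [hg]; simp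
    rw [e1, e2, ← eE]
    simp only [Complex.sub_re, Complex.sub_im]
    have e3 : |x.im - Real.exp (-t) * -z3 (p, -q)| = |-x.im - Real.exp (-t) * z3 (p, -q)| := by
      rw [← abs_neg]; congr 1; ring
    rw [e3]
    linarith

end Pool.Agent.CircleShift
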