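import Pool.Agent.Work.MP_0fc146_gt_helper89.X2

/-!
# Block XNA
-/

noncomputable section

open scoped Topology UpperHalfPlane

namespace Pool.Agent.CircleShift

namespace XNAAux

open X1Aux FreeGroup

theorem SL_isom (A : Matrix.SpecialLinearGroup (Fin 2) ℤ) (z w : ℍ) :
    dist (A • z) (A • w) = dist z w := by
  have h : ∀ z : ℍ, A • z = (A.map (Int.castRingHom ℝ)) • z := by
    intro z
    ext
    rw [UpperHalfPlane.coe_specialLinearGroup_apply, UpperHalfPlane.coe_specialLinearGroup_apply]
    simp
  rw [h, h]
  exact dist_smul _ _ _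

theorem isom (g : G) (z w : ℍ) : dist (g • z) (g • w) = dist z w := SL_isom (xrep g) z w

theorem xnrm_mul (g h : G) : xnrm (g * h) ≤ xnrm g + xnrm h := by
  unfold xnrm
  rw [mul_smul]
  refine (dist_triangle _ (g • UpperHalfPlane.I) _).trans ?_
  rw [isom]

theorem xnrm_inv (g : G) : xnrm g⁻¹ = xnrm g := by
  unfold xnrm
  rw [← isom g, smul_inv_smul, dist_comm]

theorem xnrm_one : xnrm 1 = 0 := by
  unfold xnrm
  rw [one_smul, dist_self]

theorem xnrm_lip : ∃ L : ℝ, 0 ≤ L ∧ ∀ w : List (Fin 4 × Bool), xnrm (mk w) ≤ L * w.length := by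
  refine ⟨∑ x : Fin 4 × Bool, xnrm (mk [x]), Finset.sum_nonneg (fun x _ => xnrm_nonneg _), ?_⟩
  intro w
  induction w with
  | nil => rw [← one_eq_mk, xnrm_one]; simp
  | cons x w ih =>
    rw [mk_cons]
    refine (xnrm_mul _ _).trans ?_
    have : xnrm (mk [x]) ≤ ∑ x : Fin 4 × Bool, xnrm (mk [x]) :=
      Finset.single_le_sum (f := fun x : Fin 4 × Bool => xnrm (mk [x]))
        (fun y _ => xnrm_nonneg _) (Finset.mem_univ x)
    rw [List.length_cons]
    push_cast
    rw [mul_add, mul_one]
    linarith

theorem bdd (g : G) : BddBelow (Set.range (fun z : ℍ => dist z (g • z))) :=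
  ⟨0, by rintro _ ⟨z, rfl⟩; exact dist_nonneg⟩

theorem xlen_conj (h g : G) : xlen (h * g * h⁻¹) = xlen g := by
  unfold xlen
  apply Equiv.iInf_congr (MulAction.toPerm h⁻¹)
  intro z
  simp only [MulAction.toPerm_apply]
  rw [← isom h, smul_inv_smul, mul_smul, mul_smul]

theorem xlen_le (g : G) : xlen g ≤ xnrm g := ciInf_le (bdd g) _

theorem dist_pow (g : G) (z : ℍ) (n : ℕ) : dist z (g ^ n • z) ≤ n * dist z (g • z) := by
  induction n with
  | zero => simp
  | succ n ih =>
    rw [pow_succ', mul_smul]
    refine (dist_triangle _ (g • z) _).trans ?_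
    rw [isom]
    push_cast
    linarith

theorem xnrm_pow (g : G) (ε : ℝ) (hε : 0 < ε) : ∃ B, ∀ n : ℕ, xnrm (g ^ n) ≤ n * (xlen g + ε) + B := by
  have h : xlen g < xlen g + ε := by linarith
  obtain ⟨z, hz⟩ := exists_lt_of_ciInf_lt h
  refine ⟨2 * dist UpperHalfPlane.I z, fun n => ?_⟩
  unfold xnrm
  have h1 := dist_triangle4 UpperHalfPlane.I z (g ^ n • z) (g ^ n • UpperHalfPlane.I)
  rw [isom, dist_comm z UpperHalfPlane.I] at h1
  have h2 := dist_pow g z n
  have h3 : (n : ℝ) * dist z (g • z) ≤ n * (xlen g + ε) :=
    mul_le_mul_of_nonneg_left hz.le (Nat.cast_nonneg n)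
  linarith

theorem cancel (U : List (Fin 4 × Bool)) : ∀ V, IsReduced U → IsReduced V →
    ∃ A R B, U = A ++ R ∧ V = invRev R ++ B ∧ IsReduced (A ++ B) := by
  induction U using List.reverseRecOn with
  | nil => intro V _ hV; exact ⟨[], [], V, by simp, by simp [invRev], by simpa⟩
  | append_singleton U x ih =>
    intro V hU hV
    cases V with
    | nil => exact ⟨U ++ [x], [], [], by simp, by simp [invRev], by simpa⟩
    | cons y V =>
      by_cases h : sd y = sd x + 4
      · obtain ⟨A, R, B, h1, h2, h3⟩ := ih V (red_left hU)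
          (red_sub hV (List.suffix_cons y V).isInfix)
        have hy : y = (x.1, !x.2) := sd_inj (by rw [h, sd_not])
        refine ⟨A, R ++ [x], B, by rw [h1]; simp, ?_, h3⟩
        rw [h2, hy]
        simp [invRev]
      · refine ⟨U ++ [x], [], y :: V, by simp, by simp [invRev], ?_⟩
        apply IsReduced.append_overlap hU _ (by simp)
        have : IsReduced (x :: y :: V) := by
          rw [red_cons_cons]
          exact ⟨h, hV⟩
        exact this

theorem toWord_of_red {l : List (Fin 4 × Bool)} (h : IsReduced l) : (mk l : G).toWord = l := by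
  rw [toWord_mk, h.reduce_eq]

theorem posW_red (l : List (Fin 4)) : IsReduced (posW l) := by
  induction l with
  | nil => exact IsReduced.nil
  | cons x l ih =>
    cases l with
    | nil => exact IsReduced.singleton
    | cons y l =>
      have : posW (x :: y :: l) = (x, true) :: (y, true) :: posW l := rfl
      rw [this, isReduced_cons_cons]
      exact ⟨fun _ => rfl, ih⟩

theorem posG_norm (l : List (Fin 4)) : (posG l).norm = l.length := by
  unfold FreeGroup.norm posG
  rw [toWord_of_red (posW_red l)]
  simp [posW]

theorem SH_cases {w : List (Fin 4 × Bool)} (h : SH w) :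
    (∃ l, w = posW l) ∨ ∃ l, w = invRev (posW l) := by
  cases w with
  | nil => exact Or.inl ⟨[], rfl⟩
  | cons x w =>
    rcases hx : x.2 with _ | _
    · right
      refine ⟨(invRev (x :: w)).map Prod.fst, ?_⟩
      have : posW ((invRev (x :: w)).map Prod.fst) = invRev (x :: w) := by
        unfold posW
        rw [List.map_map]
        conv_rhs => rw [← List.map_id (invRev (x :: w))]
        apply List.map_congr_left
        intro y hy
        unfold invRev at hy
        rw [List.mem_reverse, List.mem_map] at hy
        obtain ⟨z, hz, rfl⟩ := hy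
        have := h z hz x (by simp)
        simp [this, hx]
      rw [this, invRev_invRev]
    · left
      refine ⟨(x :: w).map Prod.fst, ?_⟩
      unfold posW
      rw [List.map_map]
      conv_lhs => rw [← List.map_id (x :: w)]
      apply List.map_congr_left
      intro y hy
      have := h y hy x (by simp)
      simp only [Function.comp, id]
      rw [← hx, ← this]

theorem perW_invRev {v : List (Fin 4 × Bool)} (h : PerW v) : PerW (invRev v) := by
  have key : ∀ (W : List (Fin 4 × Bool)) (n : ℕ), invRev ((List.replicate n W).flatten) =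
      (List.replicate n (invRev W)).flatten := by
    intro W n
    induction n with
    | zero => simp [invRev]
    | succ n ih =>
      rw [List.replicate_succ', List.flatten_append, List.flatten_singleton,
        invRev_append, ih, List.replicate_succ, List.flatten_cons]
  have key2 : ∀ (u v : List (Fin 4 × Bool)), u <:+: v → invRev u <:+: invRev v := by
    rintro u v ⟨s, t, rfl⟩
    refine ⟨invRev t, invRev s, ?_⟩
    simp only [invRev_append, List.append_assoc]
  obtain ⟨n, h | h⟩ := h
  · refine ⟨n, Or.inr ?_⟩
    have := key2 _ _ h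
    rwa [key] at this
  · refine ⟨n, Or.inl ?_⟩
    have := key2 _ _ h
    rwa [key, invRev_invRev] at this

end XNAAux

open X1Aux X2Aux XNAAux FreeGroup

theorem stmt_XNA (hBCC : Stmt_BCC) : Stmt_XNA := by
  intro α
  obtain ⟨D, hD⟩ := stmt_X2 α
  obtain ⟨C1, hC1⟩ := stmt_X1 (max D 1)
  obtain ⟨C2, hC2⟩ := hBCC α
  obtain ⟨c, C3, hc, hC3⟩ := stmt_X1g D
  obtain ⟨L, hL0, hL⟩ := xnrm_lip
  obtain ⟨M, -, hM⟩ := exists_lip (α⁻¹ : MulAut G).toMonoidHom
  set C : ℝ := |C1| + 2 * L * C2 + 2 * L * (max D 1 : ℕ) + ∑ i : Fin 4, xnrm (α (of i)) with hC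
  have hS : 0 ≤ ∑ i : Fin 4, xnrm (α (of i)) := Finset.sum_nonneg (fun i _ => xnrm_nonneg _)
  have hp1 : 0 ≤ 2 * L * (C2 : ℝ) := by positivity
  have hp2 : 0 ≤ 2 * L * ((max D 1 : ℕ) : ℝ) := by positivity
  have hC0 : 0 ≤ C := by rw [hC]; have := abs_nonneg C1; linarith
  refine ⟨C, c / (M + 1), C3, by positivity, ?_, ?_, ?_⟩
  · refine ⟨fun g => xnrm_nonneg _, fun g h => ?_, fun g => ?_, fun i => ?_, fun h g => ?_,
      fun g => ?_, fun g ε hε => ?_⟩
    · simp only [_root_.map_mul]
      have := xnrm_mul (α g) (α h)
      linarith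
    · simp only [_root_.map_inv, xnrm_inv]
      linarith
    · have : xnrm (α (of i)) ≤ ∑ i : Fin 4, xnrm (α (of i)) :=
        Finset.single_le_sum (f := fun i : Fin 4 => xnrm (α (of i)))
          (fun y _ => xnrm_nonneg _) (Finset.mem_univ i)
      have h1 := abs_nonneg C1
      linarith
    · simp only [_root_.map_mul, _root_.map_inv, xlen_conj]
    · have := xlen_le (α g)
      linarith
    · simp only [_root_.map_pow]
      exact xnrm_pow (α g) ε hε
  · intro g w hw hred
    have hwr : IsReduced w := red_right hred
    set h : G := mk w with hh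
    have hhw : h.toWord = w := toWord_of_red hwr
    have hgh : (g * h).norm = g.norm + h.norm := by
      have e : (g * h).toWord = g.toWord ++ w := by
        have : g * h = mk (g.toWord ++ w) := by
          rw [← mul_mk, mk_toWord]
        rw [this, toWord_of_red hred]
      unfold FreeGroup.norm
      rw [e, List.length_append, hhw]
    have hb := hC2 g h hgh
    obtain ⟨A, R, B, h1, h2, h3⟩ := cancel (α g).toWord (α h).toWord isReduced_toWord
      isReduced_toWord
    have eg : α g = mk A * mk R := by rw [mul_mk, ← h1, mk_toWord]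
    have eh : α h = (mk R)⁻¹ * mk B := by rw [inv_mk, mul_mk, ← h2, mk_toWord]
    have egh : α (g * h) = mk (A ++ B) := by
      rw [_root_.map_mul, eg, eh, ← mul_mk]; group
    have hR : R.length ≤ C2 := by
      have n1 : (α g).norm = A.length + R.length := by
        unfold FreeGroup.norm; rw [h1, List.length_append]
      have n2 : (α h).norm = R.length + B.length := by
        unfold FreeGroup.norm; rw [h2, List.length_append, invRev_length]
      have n3 : (α (g * h)).norm = A.length + B.length := by
        rw [egh]; unfold FreeGroup.norm; rw [toWord_of_red h3, List.length_append]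
      omega
    have hR' : xnrm (mk R) ≤ L * C2 := (hL R).trans
      (mul_le_mul_of_nonneg_left (by exact_mod_cast hR) hL0)
    have x1 : xnrm (α g) ≤ xnrm (mk A) + L * C2 := by
      rw [eg]; have := xnrm_mul (mk A) (mk R); linarith
    have x2 : xnrm (α h) ≤ L * C2 + xnrm (mk B) := by
      rw [eh]; have := xnrm_mul (mk R)⁻¹ (mk B); rw [xnrm_inv] at this; linarith
    have x3 : xnrm (mk A) + xnrm (mk B) ≤ xnrm (mk (A ++ B)) + |C1| + 2 * L * (max D 1 : ℕ) := by
      rcases le_or_gt (max D 1) B.length with hB | hB
      · have hnp : ¬ PerW (B.take (max D 1)) := by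
          intro hper
          have hlen : (B.take (max D 1)).length = max D 1 := by
            rw [List.length_take, min_eq_left hB]
          have hinf : B.take (max D 1) <:+: (α h).toWord := by
            refine (List.take_prefix _ B).isInfix.trans ?_
            rw [h2]
            exact (List.suffix_append _ _).isInfix
          rcases SH_cases hw with ⟨l, hl⟩ | ⟨l, hl⟩
          · have : h = posG l := by rw [hh, hl]; rfl
            rw [this] at hinf
            exact hD l _ hinf (by rw [hlen]; exact le_max_left _ _) hper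
          · have : h = (posG l)⁻¹ := by rw [hh, hl]; unfold posG; rw [inv_mk]
            rw [this, _root_.map_inv, toWord_inv] at hinf
            obtain ⟨s, t, hst⟩ := hinf
            have hinf' : invRev (B.take (max D 1)) <:+: (α (posG l)).toWord := by
              refine ⟨invRev t, invRev s, ?_⟩
              rw [← invRev_append, ← invRev_append, ← List.append_assoc, hst, invRev_invRev]
            exact hD l _ hinf' (by rw [invRev_length, hlen]; exact le_max_left _ _)
              (perW_invRev hper)
        have := hC1 A B h3 ⟨B.take (max D 1), List.take_prefix _ B, by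
          rw [List.length_take]; exact min_le_left _ _, hnp⟩
        have h5 := le_abs_self C1
        linarith
      · have hB' : xnrm (mk B) ≤ L * (max D 1 : ℕ) := (hL B).trans
          (mul_le_mul_of_nonneg_left (by exact_mod_cast hB.le) hL0)
        have hA' : xnrm (mk A) ≤ xnrm (mk (A ++ B)) + xnrm (mk B) := by
          have e : (mk A : G) = mk (A ++ B) * (mk B)⁻¹ := by rw [← mul_mk]; group
          calc xnrm (mk A) = xnrm (mk (A ++ B) * (mk B)⁻¹) := by rw [← e]
            _ ≤ xnrm (mk (A ++ B)) + xnrm (mk B)⁻¹ := xnrm_mul _ _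
            _ = _ := by rw [xnrm_inv]
        have := abs_nonneg C1
        linarith
    simp only
    rw [egh]
    linarith
  · intro l
    have h1 := hC3 (α (posG l)).toWord isReduced_toWord (hD l)
    rw [mk_toWord] at h1
    have h2 := hM (α (posG l))
    have h3 : (α⁻¹ : MulAut G).toMonoidHom (α (posG l)) = posG l := MulAut.inv_apply_self _ _ _
    rw [h3, posG_norm] at h2
    have h4 : (l.length : ℝ) ≤ (M + 1) * (α (posG l)).toWord.length := by
      have : (l.length : ℝ) ≤ M * (α (posG l)).norm := by exact_mod_cast h2
      have h5 : (α (posG l)).norm = (α (posG l)).toWord.length := rfl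
      rw [h5] at this
      have : (0 : ℝ) ≤ (α (posG l)).toWord.length := Nat.cast_nonneg _
      linarith
    have h5 : c / (M + 1) * l.length ≤ c * (α (posG l)).toWord.length := by
      rw [div_mul_eq_mul_div, div_le_iff₀ (by positivity)]
      have := mul_le_mul_of_nonneg_left h4 hc.le
      linarith
    linarith

end Pool.Agent.CircleShift
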