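import Pool.Agent.Work.MP_0fc146_gt_h31.Interface

/-!
# Block X1 and X1g: hyperbolic displacement and products of positive matrices
-/

noncomputable section

open scoped Topology UpperHalfPlane

namespace Pool.Agent.CircleShift

namespace X1Aux

abbrev M2 := Matrix (Fin 2) (Fin 2) ℤ

/-- the side of a letter -/
def sd (x : Fin 4 × Bool) : Fin 8 := if x.2 then ⟨x.1.1, by omega⟩ else ⟨x.1.1 + 4, by omega⟩

/-- the letter of a side -/
def lt (b : Fin 8) : Fin 4 × Bool :=
  if h : b.1 < 4 then (⟨b.1, h⟩, true) else (⟨b.1 - 4, by omega⟩, false)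

theorem lt_sd : ∀ x, lt (sd x) = x := by decide +kernel
theorem sd_lt : ∀ b, sd (lt b) = b := by decide +kernel
theorem sd_inj {x y} (h : sd x = sd y) : x = y := by rw [← lt_sd x, h, lt_sd]

theorem sd_not : ∀ x : Fin 4 × Bool, sd (x.1, !x.2) = sd x + 4 := by decide +kernel

/-- matrices of the sides -/
def Tt : Fin 8 → M2 := ![!![5, -2; -2, 1], !![5, -3; -3, 2], !![2, -3; -3, 5], !![1, -2; -2, 5],
  !![1, 2; 2, 5], !![2, 3; 3, 5], !![5, 3; 3, 2], !![5, 2; 2, 1]]

/-- frames -/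
def fr : Fin 8 → M2 := ![!![-2, -1; 1, 0], !![-1, -2; 1, 1], !![-1, -1; 2, 1], !![0, -1; 1, 2],
  !![1, 0; 2, 1], !![1, 1; 1, 2], !![2, 1; 1, 1], !![1, 2; 0, 1]]

/-- inverse frames -/
def fi (b : Fin 8) : M2 := !![fr b 1 1, - fr b 0 1; - fr b 1 0, fr b 0 0]

theorem fr_fi : ∀ b, fr b * fi b = 1 := by decide +kernel

/-- normalised transition matrices -/
def Nm (b b' : Fin 8) : M2 :=
  let X := fi b * Tt b * fr b'
  if X 0 0 + X 1 1 < 0 then -X else X

theorem Nm_spec (b b' : Fin 8) : Tt b * fr b' = fr b * Nm b b' ∨ Tt b * fr b' = -(fr b * Nm b b') := by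
  have h : fr b * (fi b * Tt b * fr b') = Tt b * fr b' := by
    rw [← Matrix.mul_assoc, ← Matrix.mul_assoc, fr_fi, Matrix.one_mul]
  unfold Nm
  simp only
  split_ifs
  · right; rw [Matrix.mul_neg, neg_neg, h]
  · left; rw [h]

/-- nonnegative matrices with determinant one -/
structure PM (M : M2) : Prop where
  a : 0 ≤ M 0 0
  b : 0 ≤ M 0 1
  c : 0 ≤ M 1 0
  d : 0 ≤ M 1 1
  det : M 0 0 * M 1 1 - M 0 1 * M 1 0 = 1

theorem PM_Nm' : ∀ b b' : Fin 8, b' ≠ b + 4 → 0 ≤ Nm b b' 0 0 ∧ 0 ≤ Nm b b' 0 1 ∧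
    0 ≤ Nm b b' 1 0 ∧ 0 ≤ Nm b b' 1 1 ∧
    Nm b b' 0 0 * Nm b b' 1 1 - Nm b b' 0 1 * Nm b b' 1 0 = 1 := by
  decide +kernel

theorem PM_Nm {b b' : Fin 8} (h : b' ≠ b + 4) : PM (Nm b b') := by
  obtain ⟨h1, h2, h3, h4, h5⟩ := PM_Nm' b b' h
  exact ⟨h1, h2, h3, h4, h5⟩

theorem Nm_upper : ∀ b b' : Fin 8, b' ≠ b + 4 → Nm b b' 1 0 = 0 → b' = b + 3 := by
  decide +kernel

theorem Nm_lower : ∀ b b' : Fin 8, b' ≠ b + 4 → Nm b b' 0 1 = 0 → b' = b + 5 := by
  decide +kernel

theorem mul_entries (M N : M2) : (M * N) 0 0 = M 0 0 * N 0 0 + M 0 1 * N 1 0 ∧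
    (M * N) 0 1 = M 0 0 * N 0 1 + M 0 1 * N 1 1 ∧
    (M * N) 1 0 = M 1 0 * N 0 0 + M 1 1 * N 1 0 ∧
    (M * N) 1 1 = M 1 0 * N 0 1 + M 1 1 * N 1 1 := by
  simp [Matrix.mul_apply, Fin.sum_univ_two]

theorem PM.one : PM 1 := by constructor <;> simp

theorem PM.mul {M N : M2} (hM : PM M) (hN : PM N) : PM (M * N) := by
  obtain ⟨h1, h2, h3, h4⟩ := mul_entries M N
  obtain ⟨a, b, c, d, e⟩ := hM
  obtain ⟨a', b', c', d', e'⟩ := hN
  refine ⟨?_, ?_, ?_, ?_, ?_⟩
  · rw [h1]; positivity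
  · rw [h2]; positivity
  · rw [h3]; positivity
  · rw [h4]; positivity
  · rw [h1, h2, h3, h4]
    linear_combination (N 0 0 * N 1 1 - N 0 1 * N 1 0) * e + e'

theorem PM.diag {M : M2} (h : PM M) : 1 ≤ M 0 0 ∧ 1 ≤ M 1 1 := by
  obtain ⟨a, b, c, d, e⟩ := h
  have h1 : 0 < M 0 0 * M 1 1 := by nlinarith [mul_nonneg b c]
  constructor
  · rcases a.lt_or_eq with h | h
    · omega
    · rw [← h] at h1; simp at h1
  · rcases d.lt_or_eq with h | h
    · omega
    · rw [← h] at h1; simp at h1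

theorem PM.full {M : M2} (h : PM M) (h1 : M 1 0 ≠ 0) (h2 : M 0 1 ≠ 0) : ∀ i j, 1 ≤ M i j := by
  obtain ⟨a, b⟩ := h.diag
  have hb := h.b
  have hc := h.c
  intro i j
  fin_cases i <;> fin_cases j <;> simp <;> omega

/-- sum of the entries -/
def sm (M : M2) : ℤ := M 0 0 + M 0 1 + M 1 0 + M 1 1

theorem sm_ge_two {M : M2} (h : PM M) : 2 ≤ sm M := by
  have := h.diag; have := h.b; have := h.c; unfold sm; omega

theorem sm_le_mul_right {P R : M2} (hP : PM P) (hR : PM R) : sm P ≤ sm (P * R) := by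
  obtain ⟨h1, h2, h3, h4⟩ := mul_entries P R
  unfold sm
  rw [h1, h2, h3, h4]
  obtain ⟨a, b, c, d, -⟩ := hP
  obtain ⟨p, q⟩ := hR.diag
  have r := hR.b
  have s := hR.c
  nlinarith [mul_nonneg a r, mul_nonneg b s, mul_nonneg c r, mul_nonneg d s,
    mul_nonneg a (sub_nonneg.mpr p), mul_nonneg b (sub_nonneg.mpr q),
    mul_nonneg c (sub_nonneg.mpr p), mul_nonneg d (sub_nonneg.mpr q)]

theorem sm_le_mul_left {P R : M2} (hP : PM P) (hR : PM R) : sm R ≤ sm (P * R) := by
  obtain ⟨h1, h2, h3, h4⟩ := mul_entries P R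
  unfold sm
  rw [h1, h2, h3, h4]
  obtain ⟨a, b, c, d, -⟩ := hR
  obtain ⟨p, q⟩ := hP.diag
  have r := hP.b
  have s := hP.c
  nlinarith [mul_nonneg s a, mul_nonneg s b, mul_nonneg r c, mul_nonneg r d,
    mul_nonneg (sub_nonneg.mpr p) a, mul_nonneg (sub_nonneg.mpr p) b,
    mul_nonneg (sub_nonneg.mpr q) c, mul_nonneg (sub_nonneg.mpr q) d]

theorem sm_mul_le {P R : M2} (hP : PM P) (hR : PM R) : sm (P * R) ≤ sm P * sm R := by
  obtain ⟨h1, h2, h3, h4⟩ := mul_entries P R
  unfold sm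
  rw [h1, h2, h3, h4]
  obtain ⟨a, b, c, d, -⟩ := hP
  obtain ⟨a', b', c', d', -⟩ := hR
  nlinarith [mul_nonneg a c', mul_nonneg a d', mul_nonneg b a', mul_nonneg b b',
    mul_nonneg c c', mul_nonneg c d', mul_nonneg d a', mul_nonneg d b']

theorem sm_mul_ge {P N R : M2} (hP : PM P) (hN : ∀ i j, 1 ≤ N i j) (hR : PM R) :
    sm P * sm R ≤ sm (P * N * R) := by
  obtain ⟨h1, h2, h3, h4⟩ := mul_entries (P * N) R
  obtain ⟨k1, k2, k3, k4⟩ := mul_entries P N
  obtain ⟨a, b, c, d, -⟩ := hP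
  obtain ⟨a', b', c', d', -⟩ := hR
  have e1 : P 0 0 + P 0 1 ≤ (P * N) 0 0 := by
    rw [k1]; nlinarith [hN 0 0, hN 1 0, mul_nonneg a (sub_nonneg.mpr (hN 0 0)),
      mul_nonneg b (sub_nonneg.mpr (hN 1 0))]
  have e2 : P 0 0 + P 0 1 ≤ (P * N) 0 1 := by
    rw [k2]; nlinarith [mul_nonneg a (sub_nonneg.mpr (hN 0 1)),
      mul_nonneg b (sub_nonneg.mpr (hN 1 1))]
  have e3 : P 1 0 + P 1 1 ≤ (P * N) 1 0 := by
    rw [k3]; nlinarith [mul_nonneg c (sub_nonneg.mpr (hN 0 0)),
      mul_nonneg d (sub_nonneg.mpr (hN 1 0))]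
  have e4 : P 1 0 + P 1 1 ≤ (P * N) 1 1 := by
    rw [k4]; nlinarith [mul_nonneg c (sub_nonneg.mpr (hN 0 1)),
      mul_nonneg d (sub_nonneg.mpr (hN 1 1))]
  unfold sm
  rw [h1, h2, h3, h4]
  nlinarith [mul_nonneg (sub_nonneg.mpr e1) a', mul_nonneg (sub_nonneg.mpr e1) b',
    mul_nonneg (sub_nonneg.mpr e2) c', mul_nonneg (sub_nonneg.mpr e2) d',
    mul_nonneg (sub_nonneg.mpr e3) a', mul_nonneg (sub_nonneg.mpr e3) b',
    mul_nonneg (sub_nonneg.mpr e4) c', mul_nonneg (sub_nonneg.mpr e4) d']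

/-- the product of the transition matrices along a word -/
def NN : List (Fin 4 × Bool) → M2
  | [] => 1
  | [_] => 1
  | x :: y :: l => Nm (sd x) (sd y) * NN (y :: l)

/-- the bound for the transition matrices -/
theorem sm_Nm_le : ∀ b b' : Fin 8, sm (Nm b b') ≤ 13 := by decide +kernel

theorem red_rel : ∀ a b : Fin 4 × Bool, (a.1 = b.1 → a.2 = b.2) ↔ sd b ≠ sd a + 4 := by
  decide +kernel

theorem red_iff (l : List (Fin 4 × Bool)) : FreeGroup.IsReduced l ↔
    List.IsChain (fun x y => sd y ≠ sd x + 4) l := by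
  unfold FreeGroup.IsReduced
  have h : (fun a b : Fin 4 × Bool => (a.1 = b.1 → a.2 = b.2)) = fun x y => sd y ≠ sd x + 4 := by
    funext a b
    exact propext (red_rel a b)
  rw [h]

theorem red_cons_cons {x y : Fin 4 × Bool} {l : List (Fin 4 × Bool)} :
    FreeGroup.IsReduced (x :: y :: l) ↔ sd y ≠ sd x + 4 ∧ FreeGroup.IsReduced (y :: l) := by
  rw [red_iff, red_iff, List.isChain_cons_cons]

theorem NN_PM : ∀ l : List (Fin 4 × Bool), FreeGroup.IsReduced l → PM (NN l)
  | [], _ => PM.one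
  | [_], _ => PM.one
  | x :: y :: l, h => by
    rw [red_cons_cons] at h
    exact (PM_Nm h.1).mul (NN_PM (y :: l) h.2)

theorem NN_append : ∀ A B : List (Fin 4 × Bool), FreeGroup.IsReduced (A ++ B) →
    ∃ J, PM J ∧ sm J ≤ 13 ∧ NN (A ++ B) = NN A * J * NN B
  | [], B, _ => ⟨1, PM.one, by decide +kernel, by simp [NN]⟩
  | [x], [], _ => ⟨1, PM.one, by decide +kernel, by simp [NN]⟩
  | [x], y :: B, h => by
    have h' : FreeGroup.IsReduced (x :: y :: B) := h
    rw [red_cons_cons] at h'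
    exact ⟨Nm (sd x) (sd y), PM_Nm h'.1, sm_Nm_le _ _, by simp [NN]⟩
  | x :: y :: A, B, h => by
    have h' : FreeGroup.IsReduced (x :: y :: (A ++ B)) := h
    rw [red_cons_cons] at h'
    obtain ⟨J, h1, h2, h3⟩ := NN_append (y :: A) B h'.2
    refine ⟨J, h1, h2, ?_⟩
    have e1 : NN (x :: y :: A ++ B) = Nm (sd x) (sd y) * NN (y :: A ++ B) := rfl
    have e2 : NN (x :: y :: A) = Nm (sd x) (sd y) * NN (y :: A) := rfl
    rw [e1, e2, h3]
    simp only [Matrix.mul_assoc]

theorem sm_NN_le : ∀ l : List (Fin 4 × Bool), FreeGroup.IsReduced l → sm (NN l) ≤ 2 * 13 ^ l.length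
  | [], _ => by decide +kernel
  | [_], _ => by
    have : sm (1 : M2) = 2 := by decide +kernel
    simp [NN, this]
  | x :: y :: l, h => by
    rw [red_cons_cons] at h
    have h1 := sm_NN_le (y :: l) h.2
    have h2 := sm_mul_le (PM_Nm h.1) (NN_PM (y :: l) h.2)
    have h3 := sm_Nm_le (sd x) (sd y)
    have h4 := sm_ge_two (PM_Nm h.1)
    have h5 := sm_ge_two (NN_PM (y :: l) h.2)
    have e1 : NN (x :: y :: l) = Nm (sd x) (sd y) * NN (y :: l) := rfl
    rw [e1]
    calc sm (Nm (sd x) (sd y) * NN (y :: l)) ≤ sm (Nm (sd x) (sd y)) * sm (NN (y :: l)) := h2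
      _ ≤ 13 * (2 * 13 ^ (y :: l).length) := by
        apply mul_le_mul h3 h1 (by omega) (by norm_num)
      _ = 2 * 13 ^ (x :: y :: l).length := by
        simp only [List.length_cons, pow_succ]; ring

/-! periodic words -/

/-- the periodic sequences of sides with difference `e` -/
def sq (e b : Fin 8) : ℕ → Fin 8
  | 0 => b
  | i + 1 => sq e b i + e

/-- the periodic sequences of letters -/
def per (e b : Fin 8) (i : ℕ) : Fin 4 × Bool := lt (sq e b i)

theorem per_succ (e b : Fin 8) (i : ℕ) : sd (per e b (i + 1)) = sd (per e b i) + e := by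
  unfold per
  rw [sd_lt, sd_lt]
  rfl

theorem eight_add : ∀ x e : Fin 8, x + e + e + e + e + e + e + e + e = x := by decide +kernel

theorem per_add_eight (e b : Fin 8) (i : ℕ) : per e b (i + 8) = per e b i := by
  unfold per
  congr 1
  exact eight_add (sq e b i) e

theorem chain_eq (e b : Fin 8) : ∀ (l : List (Fin 4 × Bool)) (x : Fin 4 × Bool) (i : ℕ),
    per e b i = x → List.IsChain (fun x y => sd y = sd x + e) (x :: l) →
    x :: l = (List.range (l.length + 1)).map (fun k => per e b (i + k))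
  | [], x, i, h, _ => by simp [h]
  | y :: l, x, i, h, hc => by
    rw [List.isChain_cons_cons] at hc
    have h1 : per e b (i + 1) = y := by
      apply sd_inj
      rw [per_succ, h, hc.1]
    have h2 := chain_eq e b l y (i + 1) h1 hc.2
    rw [List.range_succ_eq_map]
    simp only [List.map_cons, List.map_map, add_zero, h, List.length_cons]
    rw [h2]
    congr 1
    apply List.map_congr_left
    intro k _
    simp only [Function.comp]
    congr 1
    simp only [Nat.succ_eq_add_one]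
    ring

theorem rep_eq (e b : Fin 8) (W : List (Fin 4 × Bool))
    (hW : W = (List.range 8).map (per e b)) (n : ℕ) :
    (List.replicate n W).flatten = (List.range (8 * n)).map (per e b) := by
  induction n with
  | zero => simp
  | succ n ih =>
    rw [List.replicate_succ, List.flatten_cons, ih, hW]
    have : 8 * (n + 1) = 8 + 8 * n := by ring
    rw [this, List.range_add, List.map_append, List.map_map]
    congr 1
    apply List.map_congr_left
    intro k _
    simp only [Function.comp]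
    rw [add_comm 8 k, per_add_eight]

theorem chain_infix (e b : Fin 8) (W : List (Fin 4 × Bool))
    (hW : W = (List.range 8).map (per e b)) (hs : ∀ x, ∃ i < 8, per e b i = x)
    (l : List (Fin 4 × Bool)) (hl : List.IsChain (fun x y => sd y = sd x + e) l) :
    ∃ n : ℕ, l <:+: (List.replicate n W).flatten := by
  cases l with
  | nil => exact ⟨0, by simp⟩
  | cons x l =>
    obtain ⟨i, hi, hx⟩ := hs x
    have h := chain_eq e b l x i hx hl
    refine ⟨i + (l.length + 1), ?_⟩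
    rw [rep_eq e b W hW]
    have e1 : 8 * (i + (l.length + 1)) = i + ((l.length + 1) + (7 * (i + (l.length + 1)))) := by ring
    rw [e1, List.range_add, List.range_add, List.map_append, List.map_map, List.map_append,
      ← List.append_assoc, h]
    exact ⟨_, _, rfl⟩

theorem perW_of_three (l : List (Fin 4 × Bool))
    (hl : List.IsChain (fun x y => sd y = sd x + 3) l) : PerW l := by
  obtain ⟨n, hn⟩ := chain_infix 3 7 chatW (by decide +kernel) (by decide +kernel) l hl
  exact ⟨n, Or.inl hn⟩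

theorem perW_of_five (l : List (Fin 4 × Bool))
    (hl : List.IsChain (fun x y => sd y = sd x + 5) l) : PerW l := by
  obtain ⟨n, hn⟩ := chain_infix 5 0 (FreeGroup.invRev chatW) (by decide +kernel)
    (by decide +kernel) l hl
  exact ⟨n, Or.inr hn⟩

theorem upper_chain : ∀ l : List (Fin 4 × Bool), FreeGroup.IsReduced l → NN l 1 0 = 0 →
    List.IsChain (fun x y => sd y = sd x + 3) l
  | [], _, _ => by simp
  | [_], _, _ => by simp
  | x :: y :: l, h, h0 => by
    rw [red_cons_cons] at h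
    have hN := NN_PM (y :: l) h.2
    have hM := PM_Nm h.1
    have e1 : NN (x :: y :: l) = Nm (sd x) (sd y) * NN (y :: l) := rfl
    rw [e1, (mul_entries _ _).2.2.1] at h0
    have d1 := hN.diag
    have d2 := hM.diag
    have p1 := mul_nonneg hM.c hN.a
    have p2 := mul_nonneg hM.d hN.c
    have q1 : Nm (sd x) (sd y) 1 0 = 0 := by
      have : Nm (sd x) (sd y) 1 0 * NN (y :: l) 0 0 = 0 := by linarith
      rcases mul_eq_zero.mp this with h | h
      · exact h
      · omega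
    have q2 : NN (y :: l) 1 0 = 0 := by
      have : Nm (sd x) (sd y) 1 1 * NN (y :: l) 1 0 = 0 := by linarith
      rcases mul_eq_zero.mp this with h | h
      · omega
      · exact h
    rw [List.isChain_cons_cons]
    exact ⟨Nm_upper _ _ h.1 q1, upper_chain (y :: l) h.2 q2⟩

theorem lower_chain : ∀ l : List (Fin 4 × Bool), FreeGroup.IsReduced l → NN l 0 1 = 0 →
    List.IsChain (fun x y => sd y = sd x + 5) l
  | [], _, _ => by simp
  | [_], _, _ => by simp
  | x :: y :: l, h, h0 => by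
    rw [red_cons_cons] at h
    have hN := NN_PM (y :: l) h.2
    have hM := PM_Nm h.1
    have e1 : NN (x :: y :: l) = Nm (sd x) (sd y) * NN (y :: l) := rfl
    rw [e1, (mul_entries _ _).2.1] at h0
    have d1 := hN.diag
    have d2 := hM.diag
    have p1 := mul_nonneg hM.a hN.b
    have p2 := mul_nonneg hM.b hN.d
    have q1 : Nm (sd x) (sd y) 0 1 = 0 := by
      have : Nm (sd x) (sd y) 0 1 * NN (y :: l) 1 1 = 0 := by linarith
      rcases mul_eq_zero.mp this with h | h
      · exact h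
      · omega
    have q2 : NN (y :: l) 0 1 = 0 := by
      have : Nm (sd x) (sd y) 0 0 * NN (y :: l) 0 1 = 0 := by linarith
      rcases mul_eq_zero.mp this with h | h
      · omega
      · exact h
    rw [List.isChain_cons_cons]
    exact ⟨Nm_lower _ _ h.1 q1, lower_chain (y :: l) h.2 q2⟩

theorem NN_full {l : List (Fin 4 × Bool)} (h : FreeGroup.IsReduced l) (hp : ¬ PerW l) :
    ∀ i j, 1 ≤ NN l i j := by
  apply (NN_PM l h).full
  · exact fun h0 => hp (perW_of_three l (upper_chain l h h0))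
  · exact fun h0 => hp (perW_of_five l (lower_chain l h h0))

/-! geometry -/

/-- the square of the Frobenius norm -/
def Fn (M : M2) : ℤ := M 0 0 ^ 2 + M 0 1 ^ 2 + M 1 0 ^ 2 + M 1 1 ^ 2

theorem cosh_dist_SL (A : Matrix.SpecialLinearGroup (Fin 2) ℤ) :
    Real.cosh (dist UpperHalfPlane.I (A • UpperHalfPlane.I)) =
    ((A.1 0 0 : ℝ) ^ 2 + (A.1 0 1 : ℝ) ^ 2 + (A.1 1 0 : ℝ) ^ 2 + (A.1 1 1 : ℝ) ^ 2) / 2 := by
  rw [UpperHalfPlane.cosh_dist']
  have h := UpperHalfPlane.coe_specialLinearGroup_apply A UpperHalfPlane.I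
  have hdet : (A.1 0 0 : ℝ) * A.1 1 1 - A.1 0 1 * A.1 1 0 = 1 := by
    have := A.2
    rw [Matrix.det_fin_two] at this
    exact_mod_cast this
  simp only [UpperHalfPlane.coe_I] at h
  set a := A.1 0 0
  set b := A.1 0 1
  set c := A.1 1 0
  set d := A.1 1 1
  have hn : (c : ℝ) ^ 2 + d ^ 2 ≠ 0 := by
    intro h0
    have hc : (c : ℝ) = 0 := by nlinarith [sq_nonneg (c : ℝ), sq_nonneg (d : ℝ)]
    have hd : (d : ℝ) = 0 := by nlinarith [sq_nonneg (c : ℝ), sq_nonneg (d : ℝ)]
    rw [hc, hd] at hdet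
    simp at hdet
  have hn' : (d : ℝ) ^ 2 + c ^ 2 ≠ 0 := by
    intro h0; apply hn; linarith [h0]
  have hn'' : (d : ℝ) * d + c * c ≠ 0 := by
    intro h0; apply hn; linarith [h0]
  have hre : (A • UpperHalfPlane.I).re = (a * c + b * d) / (c ^ 2 + d ^ 2) := by
    rw [← UpperHalfPlane.coe_re, h]
    simp [Complex.div_re, Complex.normSq_apply]
    field_simp
    ring
  have him : (A • UpperHalfPlane.I).im = 1 / (c ^ 2 + d ^ 2) := by
    rw [← UpperHalfPlane.coe_im, h]
    simp [Complex.div_im, Complex.normSq_apply]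
    field_simp
    linear_combination ((c : ℝ) ^ 2 + d ^ 2) * hdet
  rw [hre, him]
  simp only [UpperHalfPlane.I_re, UpperHalfPlane.I_im]
  field_simp
  linear_combination (-((a : ℝ) * d - b * c) - 1) * hdet

theorem smul_def (g : G) (z : ℍ) : g • z = xrep g • z := rfl

theorem cosh_xnrm (g : G) : Real.cosh (xnrm g) = (Fn (xrep g).1 : ℝ) / 2 := by
  unfold xnrm
  rw [smul_def, cosh_dist_SL]
  unfold Fn
  push_cast
  rfl

theorem xnrm_nonneg (g : G) : 0 ≤ xnrm g := dist_nonneg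

theorem exp_xnrm_le (g : G) : Real.exp (xnrm g) ≤ (Fn (xrep g).1 : ℝ) := by
  have h := cosh_xnrm g
  rw [Real.cosh_eq] at h
  have := Real.exp_pos (-xnrm g)
  linarith

theorem Fn_le_exp (g : G) : (Fn (xrep g).1 : ℝ) ≤ 2 * Real.exp (xnrm g) := by
  have h := cosh_xnrm g
  rw [Real.cosh_eq] at h
  have : Real.exp (-xnrm g) ≤ Real.exp (xnrm g) :=
    Real.exp_le_exp.mpr (by linarith [xnrm_nonneg g])
  linarith

theorem Fn_mul_le (M N : M2) : Fn (M * N) ≤ Fn M * Fn N := by
  obtain ⟨h1, h2, h3, h4⟩ := mul_entries M N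
  unfold Fn
  rw [h1, h2, h3, h4]
  nlinarith [sq_nonneg (M 0 0 * N 1 0 - M 0 1 * N 0 0), sq_nonneg (M 0 0 * N 1 1 - M 0 1 * N 0 1),
    sq_nonneg (M 1 0 * N 1 0 - M 1 1 * N 0 0), sq_nonneg (M 1 0 * N 1 1 - M 1 1 * N 0 1)]

theorem Fn_neg (M : M2) : Fn (-M) = Fn M := by simp [Fn]

theorem Fn_nonneg (M : M2) : 0 ≤ Fn M := by unfold Fn; positivity

/-- adjugate -/
def ad (M : M2) : M2 := !![M 1 1, - M 0 1; - M 1 0, M 0 0]

theorem Fn_ad (M : M2) : Fn (ad M) = Fn M := by simp [Fn, ad]; ring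

/-- the factor on the right -/
def Qm (b : Fin 8) : M2 := fi b * Tt b

theorem Qm_ad : ∀ b, Qm b * ad (Qm b) = 1 := by decide +kernel

theorem fi_fr : ∀ b, fi b * fr b = 1 := by decide +kernel

theorem Fn_fr : ∀ b, Fn (fr b) ≤ 7 := by decide +kernel

theorem Fn_fi : ∀ b, Fn (fi b) ≤ 7 := by decide +kernel

theorem Fn_Qm : ∀ b, Fn (Qm b) ≤ 100 := by decide +kernel

theorem xrep_letter : ∀ x : Fin 4 × Bool, (xrep (FreeGroup.mk [x])).1 = Tt (sd x) := by
  intro x
  obtain ⟨i, b⟩ := x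
  unfold xrep
  rw [FreeGroup.lift_mk]
  cases b
  · simp only [List.map_cons, List.map_nil, List.prod_cons, List.prod_nil, mul_one, cond_false]
    revert i
    decide +kernel
  · simp only [List.map_cons, List.map_nil, List.prod_cons, List.prod_nil, mul_one, cond_true]
    revert i
    decide +kernel

theorem mk_cons (x : Fin 4 × Bool) (l : List (Fin 4 × Bool)) :
    (FreeGroup.mk (x :: l) : G) = FreeGroup.mk [x] * FreeGroup.mk l := by
  rw [FreeGroup.mul_mk]; rfl

theorem xrep_word : ∀ (l : List (Fin 4 × Bool)) (x : Fin 4 × Bool), ∃ z : Fin 8,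
    (xrep (FreeGroup.mk (x :: l))).1 = fr (sd x) * NN (x :: l) * Qm z ∨
    (xrep (FreeGroup.mk (x :: l))).1 = -(fr (sd x) * NN (x :: l) * Qm z)
  | [], x => by
    refine ⟨sd x, Or.inl ?_⟩
    rw [xrep_letter]
    have : NN [x] = 1 := rfl
    rw [this, Matrix.mul_one, Qm, ← Matrix.mul_assoc, fr_fi, Matrix.one_mul]
  | y :: l, x => by
    obtain ⟨z, hz⟩ := xrep_word l y
    have e1 : NN (x :: y :: l) = Nm (sd x) (sd y) * NN (y :: l) := rfl
    have e2 : (xrep (FreeGroup.mk (x :: y :: l))).1 =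
        Tt (sd x) * (xrep (FreeGroup.mk (y :: l))).1 := by
      rw [mk_cons x (y :: l), map_mul, Matrix.SpecialLinearGroup.coe_mul, xrep_letter]
    refine ⟨z, ?_⟩
    rw [e1, e2]
    have e3 : fr (sd x) * (Nm (sd x) (sd y) * NN (y :: l)) * Qm z =
        (fr (sd x) * Nm (sd x) (sd y)) * (NN (y :: l) * Qm z) := by
      simp only [Matrix.mul_assoc]
    have e4 : Tt (sd x) * (fr (sd y) * NN (y :: l) * Qm z) =
        (Tt (sd x) * fr (sd y)) * (NN (y :: l) * Qm z) := by
      simp only [Matrix.mul_assoc]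
    rw [e3]
    rcases hz with hz | hz <;> rcases Nm_spec (sd x) (sd y) with hs | hs <;>
      rw [hz]
    · left; rw [e4, hs]
    · right; rw [e4, hs, Matrix.neg_mul]
    · right; rw [Matrix.mul_neg, e4, hs]
    · left; rw [Matrix.mul_neg, e4, hs, Matrix.neg_mul, neg_neg]

theorem Fn_three (P N Q : M2) {p q : ℤ} (hP : Fn P ≤ p) (hQ : Fn Q ≤ q) :
    Fn (P * N * Q) ≤ p * q * Fn N := by
  have h1 := Fn_mul_le (P * N) Q
  have h2 := Fn_mul_le P N
  have a := Fn_nonneg P
  have b := Fn_nonneg N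
  have c := Fn_nonneg Q
  have hp : 0 ≤ p := le_trans a hP
  calc Fn (P * N * Q) ≤ Fn (P * N) * Fn Q := h1
    _ ≤ (Fn P * Fn N) * Fn Q := mul_le_mul_of_nonneg_right h2 c
    _ ≤ (p * Fn N) * q := by
      apply mul_le_mul (mul_le_mul_of_nonneg_right hP b) hQ c (by positivity)
    _ = p * q * Fn N := by ring

theorem Fn_word (l : List (Fin 4 × Bool)) :
    Fn (xrep (FreeGroup.mk l)).1 ≤ 700 * Fn (NN l) ∧
    Fn (NN l) ≤ 700 * Fn (xrep (FreeGroup.mk l)).1 := by
  cases l with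
  | nil =>
    have h1 : (xrep (FreeGroup.mk [])).1 = (1 : M2) := by
      rw [← FreeGroup.one_eq_mk, map_one]; rfl
    have h2 : NN [] = 1 := rfl
    rw [h1, h2]
    have : Fn 1 = 2 := by decide +kernel
    rw [this]; norm_num
  | cons x l =>
    obtain ⟨z, hz⟩ := xrep_word l x
    have e : Fn (xrep (FreeGroup.mk (x :: l))).1 = Fn (fr (sd x) * NN (x :: l) * Qm z) := by
      rcases hz with hz | hz <;> rw [hz]
      rw [Fn_neg]
    rw [e]
    constructor
    · have := Fn_three (fr (sd x)) (NN (x :: l)) (Qm z) (Fn_fr _) (Fn_Qm _)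
      linarith
    · have h := Fn_three (fi (sd x)) (fr (sd x) * NN (x :: l) * Qm z) (ad (Qm z)) (Fn_fi _)
        (q := 100) (by rw [Fn_ad]; exact Fn_Qm _)
      have e2 : fi (sd x) * (fr (sd x) * NN (x :: l) * Qm z) * ad (Qm z) = NN (x :: l) := by
        have : fi (sd x) * (fr (sd x) * NN (x :: l) * Qm z) * ad (Qm z) =
          (fi (sd x) * fr (sd x)) * NN (x :: l) * (Qm z * ad (Qm z)) := by
          simp only [Matrix.mul_assoc]
        rw [this, fi_fr, Qm_ad, Matrix.one_mul, Matrix.mul_one]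
      rw [e2] at h
      linarith

theorem Fn_sm {N : M2} (h : PM N) : Fn N ≤ sm N ^ 2 ∧ sm N ^ 2 ≤ 4 * Fn N := by
  obtain ⟨a, b, c, d, -⟩ := h
  unfold Fn sm
  constructor
  · nlinarith [mul_nonneg a b, mul_nonneg a c, mul_nonneg a d, mul_nonneg b c, mul_nonneg b d,
      mul_nonneg c d]
  · nlinarith [sq_nonneg (N 0 0 - N 0 1), sq_nonneg (N 0 0 - N 1 0), sq_nonneg (N 0 0 - N 1 1),
      sq_nonneg (N 0 1 - N 1 0), sq_nonneg (N 0 1 - N 1 1), sq_nonneg (N 1 0 - N 1 1)]

theorem xnrm_word {l : List (Fin 4 × Bool)} (h : FreeGroup.IsReduced l) :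
    xnrm (FreeGroup.mk l) ≤ 2 * Real.log (sm (NN l)) + Real.log 700 ∧
    2 * Real.log (sm (NN l)) - Real.log 5600 ≤ xnrm (FreeGroup.mk l) := by
  obtain ⟨h1, h2⟩ := Fn_word l
  obtain ⟨h3, h4⟩ := Fn_sm (NN_PM l h)
  have h5 := exp_xnrm_le (FreeGroup.mk l)
  have h6 := Fn_le_exp (FreeGroup.mk l)
  have hs : (2 : ℝ) ≤ sm (NN l) := by exact_mod_cast sm_ge_two (NN_PM l h)
  have hs0 : (0 : ℝ) < sm (NN l) := by linarith
  constructor
  · have : Real.exp (xnrm (FreeGroup.mk l)) ≤ 700 * (sm (NN l) : ℝ) ^ 2 := by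
      refine le_trans h5 ?_
      exact_mod_cast le_trans h1 (by linarith)
    have h7 := Real.log_le_log (Real.exp_pos _) this
    rw [Real.log_exp, Real.log_mul (by norm_num) (by positivity), Real.log_pow] at h7
    push_cast at h7
    linarith
  · have h8 : (sm (NN l) : ℝ) ^ 2 ≤ 5600 * Real.exp (xnrm (FreeGroup.mk l)) := by
      have : (sm (NN l) : ℝ) ^ 2 ≤ 2800 * (Fn (xrep (FreeGroup.mk l)).1 : ℝ) := by
        exact_mod_cast le_trans h4 (by linarith)
      linarith
    have h7 := Real.log_le_log (by positivity) h8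
    rw [Real.log_mul (by norm_num) (by positivity), Real.log_pow, Real.log_exp] at h7
    push_cast at h7
    linarith

theorem red_sub {L M : List (Fin 4 × Bool)} (h : FreeGroup.IsReduced L) (hs : M <:+: L) :
    FreeGroup.IsReduced M := by
  obtain ⟨s, t, rfl⟩ := hs
  exact List.IsChain.right_of_append (List.IsChain.left_of_append h)

theorem red_left {A B : List (Fin 4 × Bool)} (h : FreeGroup.IsReduced (A ++ B)) :
    FreeGroup.IsReduced A := red_sub h ⟨[], B, by simp⟩

theorem red_right {A B : List (Fin 4 × Bool)} (h : FreeGroup.IsReduced (A ++ B)) :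
    FreeGroup.IsReduced B := red_sub h ⟨A, [], by simp⟩

theorem sm_join {A w B' : List (Fin 4 × Bool)} (h : FreeGroup.IsReduced (A ++ (w ++ B')))
    (hw : ¬ PerW w) : sm (NN A) * sm (NN B') ≤ sm (NN (A ++ (w ++ B'))) ∧
      sm (NN (w ++ B')) ≤ 26 * 13 ^ w.length * sm (NN B') := by
  have hB := red_right h
  have hA := red_left h
  have hw' := red_left hB
  have hB' := red_right hB
  obtain ⟨J, hJ, hJ1, e1⟩ := NN_append A (w ++ B') h
  obtain ⟨J', hJ', hJ1', e2⟩ := NN_append w B' hB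
  have hs := sm_ge_two (NN_PM B' hB')
  have hsA := sm_ge_two (NN_PM A hA)
  have hsw := sm_ge_two (NN_PM w hw')
  constructor
  · have e3 : NN (A ++ (w ++ B')) = (NN A * J) * NN w * (J' * NN B') := by
      rw [e1, e2]; simp only [Matrix.mul_assoc]
    rw [e3]
    refine le_trans ?_ (sm_mul_ge ((NN_PM A hA).mul hJ) (NN_full hw' hw) (hJ'.mul (NN_PM B' hB')))
    apply mul_le_mul (sm_le_mul_right (NN_PM A hA) hJ) (sm_le_mul_left hJ' (NN_PM B' hB'))
      (by omega)
    have := sm_ge_two ((NN_PM A hA).mul hJ)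
    omega
  · rw [e2]
    refine le_trans (sm_mul_le ((NN_PM w hw').mul hJ') (NN_PM B' hB')) ?_
    apply mul_le_mul_of_nonneg_right _ (by omega)
    refine le_trans (sm_mul_le (NN_PM w hw') hJ') ?_
    calc sm (NN w) * sm J' ≤ (2 * 13 ^ w.length) * 13 :=
          mul_le_mul (sm_NN_le w hw') hJ1' (by have := sm_ge_two hJ'; omega) (by positivity)
      _ = 26 * 13 ^ w.length := by ring

/-- exponential growth -/
theorem sm_growth (D : ℕ) (hD : 1 ≤ D) : ∀ (k : ℕ) (w : List (Fin 4 × Bool)),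
    FreeGroup.IsReduced w → (∀ v, v <:+: w → D ≤ v.length → ¬ PerW v) → D * k ≤ w.length →
    (2 : ℤ) ^ (k + 1) ≤ sm (NN w)
  | 0, w, h, _, _ => by simpa using sm_ge_two (NN_PM w h)
  | k + 1, w, h, hp, hk => by
    have e : w = w.take D ++ w.drop D := (List.take_append_drop D w).symm
    have hl : D ≤ w.length := by
      have : D * 1 ≤ D * (k + 1) := Nat.mul_le_mul_left D (by omega)
      omega
    have h1 : (w.take D).length = D := by simp [hl]
    have h2 : ¬ PerW (w.take D) := hp _ (List.take_prefix D w).isInfix (by omega)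
    have h3 := sm_growth D hD k (w.drop D) (red_sub h (List.drop_suffix D w).isInfix)
      (fun v hv => hp v (hv.trans (List.drop_suffix D w).isInfix))
      (by rw [List.length_drop]; rw [Nat.mul_succ] at hk; omega)
    have h4 := (sm_join (A := []) (w := w.take D) (B' := w.drop D) (by
      rw [List.nil_append, ← e]; exact h) h2).1
    rw [List.nil_append, ← e] at h4
    have h5 : sm (NN []) = 2 := by decide +kernel
    rw [h5] at h4
    rw [pow_succ]
    linarith

end X1Aux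

open X1Aux

theorem stmt_X1 : Stmt_X1 := by
  intro D
  refine ⟨2 * Real.log 700 + Real.log 5600 + 2 * Real.log (26 * 13 ^ D), ?_⟩
  rintro A B hAB ⟨w, ⟨B', rfl⟩, hwD, hw⟩
  have hA := red_left hAB
  have hB := red_right hAB
  have hB' := red_right hB
  obtain ⟨j1, j2⟩ := sm_join hAB hw
  have a1 := (xnrm_word hA).1
  have a2 := (xnrm_word hB).1
  have a3 := (xnrm_word hAB).2
  have sA : (2 : ℝ) ≤ sm (NN A) := by exact_mod_cast sm_ge_two (NN_PM A hA)
  have sB' : (2 : ℝ) ≤ sm (NN B') := by exact_mod_cast sm_ge_two (NN_PM B' hB')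
  have sB : (2 : ℝ) ≤ sm (NN (w ++ B')) := by exact_mod_cast sm_ge_two (NN_PM _ hB)
  have j1' : (sm (NN A) : ℝ) * sm (NN B') ≤ sm (NN (A ++ (w ++ B'))) := by exact_mod_cast j1
  have j2' : (sm (NN (w ++ B')) : ℝ) ≤ 26 * 13 ^ D * sm (NN B') := by
    have : (sm (NN (w ++ B')) : ℝ) ≤ 26 * 13 ^ w.length * sm (NN B') := by exact_mod_cast j2
    refine le_trans this ?_
    have h13 : (13 : ℝ) ^ w.length ≤ 13 ^ D := pow_le_pow_right₀ (by norm_num) hwD
    have : (0 : ℝ) ≤ sm (NN B') := by linarith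
    nlinarith
  have l1 := Real.log_le_log (by positivity) j1'
  have l2 := Real.log_le_log (by positivity) j2'
  rw [Real.log_mul (by positivity) (by positivity)] at l1
  rw [Real.log_mul (by positivity) (by positivity)] at l2
  linarith

theorem stmt_X1g : Stmt_X1g := by
  intro D
  set D' := max D 1 with hD'
  have hD1 : 1 ≤ D' := le_max_right _ _
  have hlog2 : 0 < Real.log 2 := Real.log_pos (by norm_num)
  have hDr : (0 : ℝ) < D' := by exact_mod_cast hD1
  refine ⟨2 * Real.log 2 / D', Real.log 5600, by positivity, ?_⟩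
  intro w hw hp
  have h1 := (xnrm_word hw).2
  have h2 := sm_growth D' hD1 (w.length / D') w hw
    (fun v hv hl => hp v hv (le_trans (le_max_left _ _) hl)) (Nat.mul_div_le _ _)
  have h3 : (2 : ℝ) ^ (w.length / D' + 1) ≤ sm (NN w) := by exact_mod_cast h2
  have h4 := Real.log_le_log (by positivity) h3
  rw [Real.log_pow] at h4
  have h5 : (w.length : ℝ) / D' ≤ (w.length / D' + 1 : ℕ) := by
    rw [div_le_iff₀ hDr]
    have := Nat.div_add_mod w.length D'
    have h6 := Nat.mod_lt w.length hD1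
    have : w.length ≤ (w.length / D' + 1) * D' := by
      rw [Nat.add_mul, one_mul, mul_comm]; omega
    exact_mod_cast this
  have h6 : (w.length : ℝ) / D' * Real.log 2 ≤ Real.log (sm (NN w)) :=
    le_trans (mul_le_mul_of_nonneg_right h5 hlog2.le) h4
  have e : 2 * Real.log 2 / D' * w.length = 2 * ((w.length : ℝ) / D' * Real.log 2) := by
    field_simp
  rw [e]
  linarith

end Pool.Agent.CircleShift
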