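import Pool.Agent.Work.MP_0fc146_gt_helper89.X1
import Pool.Agent.Work.MP_0fc146_gt_helper72.TREEpath

/-!
# Block X2: images of positive words have no long peripheral parts
-/

noncomputable section

open scoped Topology UpperHalfPlane

namespace Pool.Agent.CircleShift

namespace X2Aux

open X1Aux FreeGroup

/-- the exponent sum -/
def sg : G →* Multiplicative ℤ := FreeGroup.lift (fun _ => Multiplicative.ofAdd 1)

/-- the exponent sum after an automorphism -/
def fz (α : MulAut G) (g : G) : ℤ := Multiplicative.toAdd (sg (α⁻¹ g))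

theorem fz_mul (α : MulAut G) (g h : G) : fz α (g * h) = fz α g + fz α h := by
  unfold fz
  rw [_root_.map_mul, _root_.map_mul, toAdd_mul]

theorem fz_one (α : MulAut G) : fz α 1 = 0 := by
  unfold fz
  rw [_root_.map_one, _root_.map_one, toAdd_one]

theorem fz_inv (α : MulAut G) (g : G) : fz α g⁻¹ = - fz α g := by
  have h := fz_mul α g g⁻¹
  rw [mul_inv_cancel, fz_one] at h
  linarith

theorem sg_letter (x : Fin 4 × Bool) : |Multiplicative.toAdd (sg (mk [x]))| = 1 := by
  obtain ⟨i, b⟩ := x
  unfold sg
  rw [FreeGroup.lift_mk]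
  cases b <;> simp

theorem sg_word (w : List (Fin 4 × Bool)) : |Multiplicative.toAdd (sg (mk w))| ≤ w.length := by
  induction w with
  | nil => rw [← one_eq_mk, _root_.map_one, toAdd_one]; simp
  | cons x w ih =>
    rw [mk_cons, _root_.map_mul, toAdd_mul]
    refine (abs_add_le _ _).trans ?_
    rw [sg_letter, List.length_cons]
    push_cast
    linarith

theorem sg_norm (g : G) : |Multiplicative.toAdd (sg g)| ≤ g.norm := by
  have := sg_word g.toWord
  rwa [mk_toWord] at this

theorem sg_posG (l : List (Fin 4)) : Multiplicative.toAdd (sg (posG l)) = l.length := by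
  induction l with
  | nil =>
    have : posG [] = 1 := rfl
    rw [this, _root_.map_one, toAdd_one]; simp
  | cons x l ih =>
    have e : posG (x :: l) = mk [(x, true)] * posG l := mk_cons _ _
    rw [e, _root_.map_mul, toAdd_mul, ih]
    have : Multiplicative.toAdd (sg (mk [(x, true)])) = 1 := by
      unfold sg
      rw [FreeGroup.lift_mk]
      simp
    rw [this, List.length_cons]
    push_cast
    ring

theorem exists_fz (α : MulAut G) : ∃ M : ℕ, ∀ g, |fz α g| ≤ M * g.norm := by
  obtain ⟨M, -, hM⟩ := exists_lip (α⁻¹ : MulAut G).toMonoidHom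
  refine ⟨M, fun g => (sg_norm _).trans ?_⟩
  exact_mod_cast hM g

theorem infix_per (e b : Fin 8) (K : ℕ) (v : List (Fin 4 × Bool))
    (hv : v <:+: (List.range K).map (per e b)) :
    ∃ i, v = (List.range v.length).map (fun k => per e b (i + k)) := by
  obtain ⟨s, t, h⟩ := hv
  refine ⟨s.length, ?_⟩
  apply List.ext_getElem
  · simp
  · intro k h1 h2
    simp only [List.getElem_map, List.getElem_range]
    have hk : s.length + k < ((List.range K).map (per e b)).length := by
      rw [← h]; simp only [List.length_append]; omega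
    have h3 : ((List.range K).map (per e b))[s.length + k] = per e b (s.length + k) := by
      simp
    rw [← h3]
    have h4 : (s ++ v ++ t)[s.length + k]'(by rw [h]; exact hk) = v[k] := by
      rw [List.getElem_append_left (by simp; omega), List.getElem_append_right (by omega)]
      simp
    rw [← h4]
    congr 1

theorem fz_map (α : MulAut G) (c : ℕ → Fin 4 × Bool) (m : ℕ) (i : ℕ) :
    fz α (mk ((List.range m).map (fun k => c (i + k)))) =
      ∑ k ∈ Finset.range m, fz α (mk [c (i + k)]) := by
  induction m with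
  | zero => simp only [List.range_zero, List.map_nil, Finset.range_zero, Finset.sum_empty]
            rw [← one_eq_mk, fz_one]
  | succ m ih =>
    rw [List.range_succ, List.map_append, ← mul_mk, fz_mul, ih, Finset.sum_range_succ]
    rfl

theorem four_add : ∀ x : Fin 8, x + 3 + 3 + 3 + 3 = x + 4 ∧ x + 5 + 5 + 5 + 5 = x + 4 := by
  decide +kernel

theorem lt_four : ∀ x : Fin 8, lt (x + 4) = ((lt x).1, !(lt x).2) := by decide +kernel

theorem fz_flip (α : MulAut G) (x : Fin 8) : fz α (mk [lt (x + 4)]) = - fz α (mk [lt x]) := by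
  rw [lt_four, ← fz_inv, inv_mk]
  rfl

theorem fz_per (α : MulAut G) (e b : Fin 8) (he : ∀ x : Fin 8, x + e + e + e + e = x + 4) (j : ℕ) :
    fz α (mk [per e b (j + 4)]) = - fz α (mk [per e b j]) := by
  have : per e b (j + 4) = lt (sq e b j + 4) := by
    unfold per
    rw [← he]
    rfl
  rw [this, fz_flip]
  rfl

theorem sum_bound (F : ℕ → ℤ) (M : ℤ) (hM : ∀ j, |F j| ≤ M) (h4 : ∀ j, F (j + 4) = - F j) :
    ∀ m i, |∑ k ∈ Finset.range m, F (i + k)| ≤ 8 * M := by
  have hM0 : 0 ≤ M := (abs_nonneg _).trans (hM 0)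
  intro m
  induction m using Nat.strong_induction_on with
  | _ m ih =>
    intro i
    rcases lt_or_ge m 8 with h | h
    · refine (Finset.abs_sum_le_sum_abs _ _).trans ?_
      refine (Finset.sum_le_sum (fun k _ => hM (i + k))).trans ?_
      rw [Finset.sum_const, Finset.card_range, nsmul_eq_mul]
      have : (m : ℤ) ≤ 8 := by exact_mod_cast h.le
      nlinarith
    · obtain ⟨m', rfl⟩ := Nat.exists_eq_add_of_le h
      rw [Finset.sum_range_add]
      have e1 : ∑ k ∈ Finset.range 8, F (i + k) = 0 := by
        simp only [Finset.sum_range_succ, Finset.range_zero, Finset.sum_empty, add_zero, zero_add]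
        have a0 := h4 i
        have a1 := h4 (i + 1)
        have a2 := h4 (i + 2)
        have a3 := h4 (i + 3)
        rw [show i + 1 + 4 = i + 5 by ring] at a1
        rw [show i + 2 + 4 = i + 6 by ring] at a2
        rw [show i + 3 + 4 = i + 7 by ring] at a3
        linarith
      have e2 : ∑ k ∈ Finset.range m', F (i + (8 + k)) = ∑ k ∈ Finset.range m', F (i + k) := by
        apply Finset.sum_congr rfl
        intro k _
        have a0 := h4 (i + k)
        have a1 := h4 (i + k + 4)
        rw [show i + (8 + k) = i + k + 4 + 4 by ring, a1, a0, neg_neg]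
      rw [e1, zero_add, e2]
      exact ih m' (by omega) i

theorem perW_fz (α : MulAut G) (M : ℕ) (hM : ∀ g, |fz α g| ≤ M * g.norm)
    (v : List (Fin 4 × Bool)) (hv : PerW v) : |fz α (mk v)| ≤ 8 * M := by
  have key : ∀ e b : Fin 8, (∀ x : Fin 8, x + e + e + e + e = x + 4) →
      ∀ K, v <:+: (List.range K).map (per e b) → |fz α (mk v)| ≤ 8 * M := by
    intro e b he K hK
    obtain ⟨i, hi⟩ := infix_per e b K v hK
    rw [hi, fz_map α (per e b) v.length i]
    apply sum_bound (fun j => fz α (mk [per e b j])) M
    · intro j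
      have h1 := hM (mk [per e b j])
      have h2 : (mk [per e b j] : G).norm ≤ 1 := by
        have := FreeGroup.norm_mk_le (L₁ := [per e b j])
        simpa using this
      have h3 : ((mk [per e b j] : G).norm : ℤ) ≤ 1 := by exact_mod_cast h2
      nlinarith
    · exact fz_per α e b he
  obtain ⟨n, h | h⟩ := hv
  · rw [rep_eq 3 7 chatW (by decide +kernel)] at h
    exact key 3 7 (fun x => (four_add x).1) _ h
  · rw [rep_eq 5 0 (invRev chatW) (by decide +kernel)] at h
    exact key 5 0 (fun x => (four_add x).2) _ h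

end X2Aux

open X1Aux X2Aux FreeGroup

theorem stmt_X2 : Stmt_X2 := by
  intro α
  obtain ⟨N, hN1, hN⟩ := exists_lip α.toMonoidHom
  obtain ⟨M, hM⟩ := exists_fz α
  refine ⟨2 * N + N * (8 * M + 2 * M * N) + 1, ?_⟩
  intro l v hv hD hper
  obtain ⟨u, r, h⟩ := hv
  set p : ℕ → G := fun i => α (posG (l.take i)) with hp
  have p0 : p 0 = 1 := by
    simp only [hp, List.take_zero]
    exact _root_.map_one α
  have pn : p l.length = α (posG l) := by simp only [hp, List.take_length]
  have hstep : ∀ i < l.length, ((p i)⁻¹ * p (i + 1)).norm ≤ N := by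
    intro i hi
    have e : posG (l.take (i + 1)) = posG (l.take i) * mk [(l[i], true)] := by
      rw [List.take_add_one, List.getElem?_eq_getElem hi]
      unfold posG posW
      rw [List.map_append, ← mul_mk]
      rfl
    simp only [hp]
    rw [e, _root_.map_mul, inv_mul_cancel_left]
    exact hN1 _
  have hpath : ∀ k i, i + k ≤ l.length → ((p i)⁻¹ * p (i + k)).norm ≤ N * k := by
    intro k
    induction k with
    | zero => intro i _; simp
    | succ k ih =>
      intro i hik
      have e : (p i)⁻¹ * p (i + (k + 1)) = ((p i)⁻¹ * p (i + k)) * ((p (i + k))⁻¹ * p (i + k + 1)) := by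
        rw [← add_assoc]; group
      rw [e]
      refine (FreeGroup.norm_mul_le _ _).trans ?_
      have h1 := ih i (by omega)
      have h2 := hstep (i + k) (by omega)
      rw [mul_add, mul_one]
      omega
  have hfz : ∀ i ≤ l.length, fz α (p i) = i := by
    intro i hi
    simp only [hp]
    unfold fz
    rw [MulAut.inv_apply_self, sg_posG, List.length_take, min_eq_left hi]
  have hw : ((p 0)⁻¹ * p l.length).toWord = u ++ (v ++ r) := by
    rw [p0, pn, inv_one, one_mul, ← h, List.append_assoc]
  have hw' : ((p 0)⁻¹ * p l.length).toWord = (u ++ v) ++ r := by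
    rw [hw, List.append_assoc]
  obtain ⟨i, hi, hi'⟩ := tree_path_prefix N p l.length hstep _ _ hw
  obtain ⟨j, hj, hj'⟩ := tree_path_prefix N p l.length hstep _ _ hw'
  rw [p0, one_mul] at hi' hj'
  set a := (mk u)⁻¹ * p i with ha
  set b := (mk (u ++ v))⁻¹ * p j with hb
  have hmv : (mk v : G) = a * ((p i)⁻¹ * p j) * b⁻¹ := by
    rw [ha, hb, ← mul_mk]; group
  have hred : IsReduced v := by
    have : IsReduced ((α (posG l)).toWord) := isReduced_toWord
    exact red_sub this ⟨u, r, h⟩
  have hnv : (mk v : G).norm = v.length := by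
    unfold FreeGroup.norm
    rw [toWord_mk, hred.reduce_eq]
  have f1 : fz α (mk v) = fz α a + (j - i) - fz α b := by
    have g1 : fz α ((p i)⁻¹ * p j) = j - i := by
      rw [fz_mul, fz_inv, hfz i hi, hfz j hj]; ring
    have g2 : fz α (a * ((p i)⁻¹ * p j) * b⁻¹) = fz α a + fz α ((p i)⁻¹ * p j) - fz α b := by
      rw [fz_mul α _ b⁻¹, fz_mul α a _, fz_inv α b]; ring
    rw [hmv, g2, g1]
  have f2 := perW_fz α M hM v hper
  have f3 : |fz α a| ≤ M * N := (hM a).trans (by
    have : (a.norm : ℤ) ≤ N := by exact_mod_cast hi'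
    nlinarith [(Nat.cast_nonneg M : (0 : ℤ) ≤ M)])
  have f4 : |fz α b| ≤ M * N := (hM b).trans (by
    have : (b.norm : ℤ) ≤ N := by exact_mod_cast hj'
    nlinarith [(Nat.cast_nonneg M : (0 : ℤ) ≤ M)])
  have f5 : |(j : ℤ) - i| ≤ 8 * M + 2 * M * N := by
    rw [abs_le] at *
    constructor <;> linarith [f2.1, f2.2, f3.1, f3.2, f4.1, f4.2]
  have f6 : ((p i)⁻¹ * p j).norm ≤ N * (8 * M + 2 * M * N) := by
    rcases le_total i j with hij | hij
    · obtain ⟨k, rfl⟩ := Nat.exists_eq_add_of_le hij
      refine (hpath k i hj).trans (Nat.mul_le_mul_left _ ?_)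
      have : |((i + k : ℕ) : ℤ) - i| = k := by
        push_cast; rw [add_sub_cancel_left]; exact abs_of_nonneg (by positivity)
      rw [this] at f5
      exact_mod_cast f5
    · obtain ⟨k, rfl⟩ := Nat.exists_eq_add_of_le hij
      have e : ((p (j + k))⁻¹ * p j).norm = ((p j)⁻¹ * p (j + k)).norm := by
        rw [← norm_inv_eq]; congr 1; group
      rw [e]
      refine (hpath k j hi).trans (Nat.mul_le_mul_left _ ?_)
      have : |(j : ℤ) - ((j + k : ℕ) : ℤ)| = k := by
        push_cast
        rw [show (j : ℤ) - (j + k) = -k by ring, abs_neg]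
        exact abs_of_nonneg (by positivity)
      rw [this] at f5
      exact_mod_cast f5
  have f7 : (mk v : G).norm ≤ N + N * (8 * M + 2 * M * N) + N := by
    rw [hmv]
    refine (FreeGroup.norm_mul_le _ _).trans ?_
    rw [norm_inv_eq]
    have := FreeGroup.norm_mul_le a ((p i)⁻¹ * p j)
    omega
  omega

end Pool.Agent.CircleShift
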